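import Pool.Agent.Helper1.Stab.Defs

/-! The homotopy from `A ⊕ B` to `B ⊕ A` for isometries. -/

open Topology Filter Set Matrix

noncomputable section

namespace Pool.Agent.Helper9.Stab

open Pool.Agent.Helper1.Stab

/-- the finite part of a frame -/
def toM {N : ℕ} (F : Frame N) : Matrix (Fin (2 * N)) (Fin N) ℂ := Matrix.of fun a c => F.1 a c

theorem toM_star_mul {N : ℕ} (F : Frame N) : (toM F)ᴴ * toM F = 1 := by
  ext i j
  rw [Matrix.mul_apply, Matrix.one_apply]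
  have h := F.2.2 i i.2 j j.2
  rw [Finset.sum_range] at h
  simp only [Fin.val_inj] at h
  exact h

/-- the infinite matrix of a matrix -/
def ofMf {N : ℕ} (M : Matrix (Fin (2 * N)) (Fin N) ℂ) (i j : ℕ) : ℂ :=
  if h : i < 2 * N ∧ j < N then M ⟨i, h.1⟩ ⟨j, h.2⟩ else if i = 2 * j then 1 else 0

theorem ofMf_in {N : ℕ} (M : Matrix (Fin (2 * N)) (Fin N) ℂ) {i j : ℕ} (hi : i < 2 * N)
    (hj : j < N) : ofMf M i j = M ⟨i, hi⟩ ⟨j, hj⟩ := dif_pos ⟨hi, hj⟩

theorem ofMf_out {N : ℕ} (M : Matrix (Fin (2 * N)) (Fin N) ℂ) {i j : ℕ}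
    (hij : ¬ (i < 2 * N ∧ j < N)) : ofMf M i j = if i = 2 * j then 1 else 0 := dif_neg hij

theorem ofMf_frame {N : ℕ} (M : Matrix (Fin (2 * N)) (Fin N) ℂ) (h : Mᴴ * M = 1) :
    (∀ i j, (2 * N ≤ i ∨ N ≤ j) → ofMf M i j = if i = 2 * j then 1 else 0) ∧
    ∀ j < N, ∀ j' < N, ∑ i ∈ Finset.range (2 * N), star (ofMf M i j) * ofMf M i j' =
      if j = j' then 1 else 0 := by
  constructor
  · intro i j hij
    exact ofMf_out M (by omega)
  · intro j hj j' hj'
    have h2 := congrFun (congrFun h ⟨j, hj⟩) ⟨j', hj'⟩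
    rw [Matrix.mul_apply, Matrix.one_apply] at h2
    simp only [Fin.mk.injEq] at h2
    rw [← h2, Finset.sum_range]
    refine Finset.sum_congr rfl fun i _ => ?_
    rw [ofMf_in M i.2 hj, ofMf_in M i.2 hj']
    rfl

/-- the frame of a matrix -/
def ofM {N : ℕ} (M : Matrix (Fin (2 * N)) (Fin N) ℂ) (h : Mᴴ * M = 1) : Frame N :=
  ⟨ofMf M, ofMf_frame M h⟩

theorem ofM_apply {N : ℕ} (M : Matrix (Fin (2 * N)) (Fin N) ℂ) (h : Mᴴ * M = 1)
    (a : Fin (2 * N)) (c : Fin N) : (ofM M h).1 a c = M a c := ofMf_in M a.2 c.2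

theorem ofM_out {N : ℕ} (M : Matrix (Fin (2 * N)) (Fin N) ℂ) (h : Mᴴ * M = 1)
    (i j : ℕ) (hij : ¬ (i < 2 * N ∧ j < N)) : (ofM M h).1 i j = if i = 2 * j then 1 else 0 :=
  ofMf_out M hij

theorem frame_out {N : ℕ} (F : Frame N) (i j : ℕ) (hij : ¬ (i < 2 * N ∧ j < N)) :
    F.1 i j = if i = 2 * j then 1 else 0 := F.2.1 i j (by omega)

theorem ofM_toM {N : ℕ} (F : Frame N) (h) : ofM (toM F) h = F := by
  refine Subtype.ext (funext fun i => funext fun j => ?_)
  by_cases hij : i < 2 * N ∧ j < N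
  · exact ofM_apply (toM F) h ⟨i, hij.1⟩ ⟨j, hij.2⟩
  · rw [ofM_out _ _ _ _ hij, frame_out _ _ _ hij]

theorem conj_aux {N : ℕ} {U : Matrix (Fin (2 * N)) (Fin (2 * N)) ℂ} {V : Matrix (Fin N) (Fin N) ℂ}
    (hU : U ∈ Matrix.unitaryGroup (Fin (2 * N)) ℂ) (hV : V ∈ Matrix.unitaryGroup (Fin N) ℂ)
    (F : Frame N) : (U * toM F * V)ᴴ * (U * toM F * V) = 1 := by
  have h1 : Uᴴ * U = 1 := (Matrix.mem_unitaryGroup_iff').1 hU
  have h2 : Vᴴ * V = 1 := (Matrix.mem_unitaryGroup_iff').1 hV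
  rw [Matrix.conjTranspose_mul, Matrix.conjTranspose_mul]
  calc Vᴴ * ((toM F)ᴴ * Uᴴ) * (U * toM F * V)
      = Vᴴ * ((toM F)ᴴ * (Uᴴ * U) * toM F) * V := by simp only [Matrix.mul_assoc]
    _ = 1 := by rw [h1, Matrix.mul_one, toM_star_mul, Matrix.mul_one, h2]

/-- the frame `U F V` -/
def fconj {N : ℕ} {U : Matrix (Fin (2 * N)) (Fin (2 * N)) ℂ} {V : Matrix (Fin N) (Fin N) ℂ}
    (hU : U ∈ Matrix.unitaryGroup (Fin (2 * N)) ℂ) (hV : V ∈ Matrix.unitaryGroup (Fin N) ℂ)
    (F : Frame N) : Frame N := ofM (U * toM F * V) (conj_aux hU hV F)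

theorem rel_iff {D : Set ℂ} {N : ℕ} {F F' : Frame N} : FrameRel D N F F' ↔
    ∃ g ∈ Matrix.unitaryGroup (Fin N) ℂ, Matrix.det g ∈ D ∧ toM F' = toM F * g := by
  constructor
  · rintro ⟨g, hg, hd, h⟩
    refine ⟨g, hg, hd, ?_⟩
    ext i j
    rw [Matrix.mul_apply]
    exact h i j
  · rintro ⟨g, hg, hd, h⟩
    refine ⟨g, hg, hd, fun i j => ?_⟩
    by_cases hi : i < 2 * N
    · have h2 := congrFun (congrFun h ⟨i, hi⟩) j
      rw [Matrix.mul_apply] at h2
      exact h2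
    · rw [frame_out F' i j (by omega), if_neg (by have := j.2; omega)]
      refine (Finset.sum_eq_zero fun l _ => ?_).symm
      rw [frame_out F i l (by omega), if_neg (by have := l.2; omega), zero_mul]

theorem toM_fconj {N : ℕ} {U : Matrix (Fin (2 * N)) (Fin (2 * N)) ℂ}
    {V : Matrix (Fin N) (Fin N) ℂ}
    (hU : U ∈ Matrix.unitaryGroup (Fin (2 * N)) ℂ) (hV : V ∈ Matrix.unitaryGroup (Fin N) ℂ)
    (F : Frame N) : toM (fconj hU hV F) = U * toM F * V := by
  ext a c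
  exact ofM_apply _ (conj_aux hU hV F) a c

theorem rel_fconj {D : Set ℂ} {N : ℕ} {U : Matrix (Fin (2 * N)) (Fin (2 * N)) ℂ}
    {V : Matrix (Fin N) (Fin N) ℂ}
    (hU : U ∈ Matrix.unitaryGroup (Fin (2 * N)) ℂ) (hV : V ∈ Matrix.unitaryGroup (Fin N) ℂ)
    {F F' : Frame N} (h : FrameRel D N F F') :
    FrameRel D N (fconj hU hV F) (fconj hU hV F') := by
  rw [rel_iff] at h ⊢
  obtain ⟨g, hg, hd, h⟩ := h
  have h1 : V * star V = 1 := (Matrix.mem_unitaryGroup_iff).1 hV
  refine ⟨star V * g * V, mul_mem (mul_mem (Unitary.star_mem hV) hg) hV, ?_, ?_⟩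
  · have h2 : (star V * g * V).det = g.det := by
      have h3 : (V * star V).det = 1 := by rw [h1, Matrix.det_one]
      rw [Matrix.det_mul] at h3
      rw [Matrix.det_mul, Matrix.det_mul]
      linear_combination g.det * h3
    rwa [h2]
  · have h2 : V * (star V * g * V) = g * V := by
      rw [← Matrix.mul_assoc, ← Matrix.mul_assoc, h1, Matrix.one_mul]
    rw [toM_fconj, toM_fconj, h, Matrix.mul_assoc (U * toM F) V, h2]
    simp only [Matrix.mul_assoc]

section maps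

variable {D : Set ℂ}

/-- the map `[F] ↦ [U F V]` -/
def gconj {N : ℕ} {U : Matrix (Fin (2 * N)) (Fin (2 * N)) ℂ} {V : Matrix (Fin N) (Fin N) ℂ}
    (hU : U ∈ Matrix.unitaryGroup (Fin (2 * N)) ℂ) (hV : V ∈ Matrix.unitaryGroup (Fin N) ℂ) :
    Gr D N → Gr D N := Quot.map (fconj hU hV) fun _ _ h => rel_fconj hU hV h

theorem gconj_cont {N : ℕ} {u : unitInterval → Matrix (Fin (2 * N)) (Fin (2 * N)) ℂ}
    {v : unitInterval → Matrix (Fin N) (Fin N) ℂ} (hu : Continuous u) (hv : Continuous v)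
    (hU : ∀ t, u t ∈ Matrix.unitaryGroup (Fin (2 * N)) ℂ)
    (hV : ∀ t, v t ∈ Matrix.unitaryGroup (Fin N) ℂ) :
    Continuous fun x : unitInterval × Gr D N => gconj (hU x.1) (hV x.1) x.2 := by
  have hq : IsOpenQuotientMap (Prod.map (id : unitInterval → unitInterval)
      (Quot.mk (FrameRel D N) : Frame N → Gr D N)) :=
    IsOpenQuotientMap.id.prodMap (isOpenQuotientMap_gr D N)
  refine hq.continuous_comp_iff.1 ?_
  have h1 : Continuous fun x : unitInterval × Frame N => fconj (hU x.1) (hV x.1) x.2 := by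
    refine Continuous.subtype_mk ?_ _
    have hm : Continuous fun x : unitInterval × Frame N => u x.1 * toM x.2 * v x.1 := by
      refine Continuous.matrix_mul (Continuous.matrix_mul (hu.comp continuous_fst) ?_)
        (hv.comp continuous_fst)
      refine continuous_matrix fun a c => ?_
      exact (continuous_apply (c : ℕ)).comp ((continuous_apply (a : ℕ)).comp
        (continuous_subtype_val.comp continuous_snd))
    refine continuous_pi fun i => continuous_pi fun j => ?_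
    by_cases h : i < 2 * N ∧ j < N
    · refine (hm.matrix_elem ⟨i, h.1⟩ ⟨j, h.2⟩).congr fun x => ?_
      exact (ofMf_in _ h.1 h.2).symm
    · refine (continuous_const (y := (if i = 2 * j then (1 : ℂ) else 0))).congr fun x => ?_
      exact (ofMf_out _ h).symm
  exact continuous_quot_mk.comp h1

/-- the sum of classes -/
def gsum (k l : ℕ) (x : Gr D k × Gr D l) : Gr D (k + l) :=
  Quot.lift (fun A : Frame k => Quot.lift (fun B : Frame l =>
      (Quot.mk (FrameRel D (k + l)) (A.sum B) : Gr D (k + l))) (by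
        rintro B B' ⟨g, hg, hd, hB⟩
        refine Quot.sound (frameRel_sum (g := 1) (h := g) (one_mem _) hg ?_ (fun i j => ?_) hB)
        · rwa [Matrix.det_one, one_mul]
        · simp [Matrix.one_apply]) x.2) (by
        rintro A A' ⟨g, hg, hd, hA⟩
        obtain ⟨x1, x2⟩ := x
        induction x2 using Quot.ind with
        | mk B =>
          refine Quot.sound (frameRel_sum (g := g) (h := 1) hg (one_mem _) ?_ hA (fun i j => ?_))
          · rwa [Matrix.det_one, mul_one]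
          · simp [Matrix.one_apply]) x.1

theorem gsum_cont (k l : ℕ) : Continuous (gsum (D := D) k l) := by
  have hq : IsOpenQuotientMap (Prod.map (Quot.mk (FrameRel D k) : Frame k → Gr D k)
      (Quot.mk (FrameRel D l) : Frame l → Gr D l)) :=
    (isOpenQuotientMap_gr D k).prodMap (isOpenQuotientMap_gr D l)
  refine hq.continuous_comp_iff.1 ?_
  exact continuous_quot_mk.comp ((Frame.continuous_sum k l).comp continuous_swap)

end maps

/-- rotation of an interval -/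
def shF (a b x : ℕ) : ℕ := if x < b then x + a else x - b

theorem shF_lt' {a b x : ℕ} (h : x < a + b) : shF a b x < a + b := by
  unfold shF
  split_ifs <;> omega

theorem shF_shF {a b x : ℕ} (h : x < a + b) : shF b a (shF a b x) = x := by
  unfold shF
  split_ifs <;> omega

/-- rotation of `Fin n`, `n = a + b` -/
def shP (a b n : ℕ) (h : n = a + b) : Equiv.Perm (Fin n) where
  toFun i := ⟨shF a b i, by
    have h1 := shF_lt' (a := a) (b := b) (x := i.1) (by have := i.2; omega)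
    omega⟩
  invFun i := ⟨shF b a i, by
    have h1 := shF_lt' (a := b) (b := a) (x := i.1) (by have := i.2; omega)
    omega⟩
  left_inv i := Fin.ext (shF_shF (by have := i.2; omega))
  right_inv i := Fin.ext (shF_shF (by have := i.2; omega))

theorem shP_lt {a b n : ℕ} (h : n = a + b) (i : Fin n) (hi : i.1 < b) :
    (shP a b n h i : ℕ) = i.1 + a := if_pos hi

theorem shP_ge {a b n : ℕ} (h : n = a + b) (i : Fin n) (hi : ¬ i.1 < b) :
    (shP a b n h i : ℕ) = i.1 - b := if_neg hi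

theorem sigma_ext {m m' : ℕ} (h : m = m') (F : Frame m) (F' : Frame m') (hF : F.1 = F'.1) :
    (⟨m, F⟩ : Σ k, Frame k) = ⟨m', F'⟩ := by
  subst h
  congr 1
  exact Subtype.ext hF

theorem fconj_perm (k l : ℕ) (A : Frame k) (B : Frame l)
    {U : Matrix (Fin (2 * (k + l))) (Fin (2 * (k + l))) ℂ} {V : Matrix (Fin (k + l)) (Fin (k + l)) ℂ}
    (hU : U ∈ Matrix.unitaryGroup _ ℂ) (hV : V ∈ Matrix.unitaryGroup _ ℂ)
    (hU1 : ∀ i j, U i j = if i = (shP (2 * k) (2 * l) (2 * (k + l)) (by ring)).symm j then 1 else 0)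
    (hV1 : ∀ i j, V i j = if i = (shP k l (k + l) rfl) j then 1 else 0) :
    (fconj hU hV (A.sum B)).1 = (B.sum A).1 := by
  funext i j
  by_cases hij : i < 2 * (k + l) ∧ j < k + l
  · have e1 : (fconj hU hV (A.sum B)).1 i j =
        (U * toM (A.sum B) * V) ⟨i, hij.1⟩ ⟨j, hij.2⟩ := ofM_apply _ _ ⟨i, hij.1⟩ ⟨j, hij.2⟩
    have e2 : (U * toM (A.sum B) * V) ⟨i, hij.1⟩ ⟨j, hij.2⟩ =
        (A.sum B).1 (shP (2 * k) (2 * l) (2 * (k + l)) (by ring) ⟨i, hij.1⟩)
          (shP k l (k + l) rfl ⟨j, hij.2⟩) := by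
      rw [Matrix.mul_apply, Finset.sum_eq_single (shP k l (k + l) rfl ⟨j, hij.2⟩)]
      · rw [hV1, if_pos rfl, mul_one, Matrix.mul_apply,
          Finset.sum_eq_single (shP (2 * k) (2 * l) (2 * (k + l)) (by ring) ⟨i, hij.1⟩)]
        · rw [hU1, Equiv.symm_apply_apply, if_pos rfl, one_mul]
          rfl
        · intro a _ ha
          rw [hU1, if_neg, zero_mul]
          intro h
          apply ha
          rw [h, Equiv.apply_symm_apply]
        · intro h; exact absurd (Finset.mem_univ _) h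
      · intro c _ hc
        rw [hV1, if_neg hc, mul_zero]
      · intro h; exact absurd (Finset.mem_univ _) h
    rw [e1, e2]
    change (if (shP k l (k + l) rfl ⟨j, hij.2⟩ : ℕ) < k then A.1 _ _ else if
      (shP (2 * k) (2 * l) (2 * (k + l)) (by ring) ⟨i, hij.1⟩ : ℕ) < 2 * k then 0 else B.1 _ _) =
      if j < l then B.1 i j else if i < 2 * l then 0 else A.1 (i - 2 * l) (j - l)
    by_cases hj : j < l
    · rw [shP_lt _ ⟨j, hij.2⟩ hj, if_neg (by simp only; omega), if_pos hj]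
      by_cases hi : i < 2 * l
      · rw [shP_lt _ ⟨i, hij.1⟩ hi, if_neg (by simp only; omega)]
        change B.1 (i + 2 * k - 2 * k) (j + k - k) = B.1 i j
        rw [Nat.add_sub_cancel, Nat.add_sub_cancel]
      · rw [shP_ge _ ⟨i, hij.1⟩ hi, if_pos (by simp only; omega),
          frame_out B i j (by omega), if_neg (by omega)]
    · rw [shP_ge _ ⟨j, hij.2⟩ hj, if_pos (by simp only; omega), if_neg hj]
      by_cases hi : i < 2 * l
      · rw [shP_lt _ ⟨i, hij.1⟩ hi, if_pos hi, frame_out A _ _ (by simp only; omega),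
          if_neg (by simp only; omega)]
      · rw [shP_ge _ ⟨i, hij.1⟩ hi, if_neg hi]
  · rw [frame_out _ i j hij, frame_out (B.sum A) i j (by omega)]

theorem gconj_mk {D : Set ℂ} {N : ℕ} {U : Matrix (Fin (2 * N)) (Fin (2 * N)) ℂ}
    {V : Matrix (Fin N) (Fin N) ℂ}
    (hU : U ∈ Matrix.unitaryGroup (Fin (2 * N)) ℂ) (hV : V ∈ Matrix.unitaryGroup (Fin N) ℂ)
    (F : Frame N) : gconj (D := D) hU hV (Quot.mk _ F) = Quot.mk _ (fconj hU hV F) := rfl

theorem gsum_mk {D : Set ℂ} {k l : ℕ} (A : Frame k) (B : Frame l) :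
    gsum (D := D) k l (Quot.mk _ A, Quot.mk _ B) = Quot.mk _ (A.sum B) := rfl

theorem toBG_mk {D : Set ℂ} {N : ℕ} (F : Frame N) :
    toBG D N (Quot.mk _ F) = Quot.mk _ ⟨N, F⟩ := rfl

theorem act_mk {D : Set ℂ} {k l : ℕ} (A : Frame k) (B : Frame l) :
    act D k (Quot.mk _ A, Quot.mk _ ⟨l, B⟩) = Quot.mk _ ⟨k + l, A.sum B⟩ := rfl

theorem fconj_one {N : ℕ} {U : Matrix (Fin (2 * N)) (Fin (2 * N)) ℂ}
    {V : Matrix (Fin N) (Fin N) ℂ}
    (hU : U ∈ Matrix.unitaryGroup (Fin (2 * N)) ℂ) (hV : V ∈ Matrix.unitaryGroup (Fin N) ℂ)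
    (hU1 : U = 1) (hV1 : V = 1) (F : Frame N) : fconj hU hV F = F := by
  have h2 : U * toM F * V = toM F := by
    rw [hU1, hV1, Matrix.one_mul, Matrix.mul_one]
  have h3 : ∀ (M : Matrix (Fin (2 * N)) (Fin N) ℂ) (hM : Mᴴ * M = 1),
      M = toM F → ofM M hM = F := by
    rintro M hM rfl
    exact ofM_toM _ _
  exact h3 _ _ h2

theorem comm_zero {D : Set ℂ} {k l : ℕ} {U : Matrix (Fin (2 * (k + l))) (Fin (2 * (k + l))) ℂ}
    {V : Matrix (Fin (k + l)) (Fin (k + l)) ℂ}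
    (hU : U ∈ Matrix.unitaryGroup (Fin (2 * (k + l))) ℂ)
    (hV : V ∈ Matrix.unitaryGroup (Fin (k + l)) ℂ) (hU1 : U = 1) (hV1 : V = 1)
    (A : Gr D k) (B : Gr D l) :
    toBG D (k + l) (gconj hU hV (gsum k l (A, B))) = act D k (A, toBG D l B) := by
  induction A using Quot.ind with
  | mk A =>
    induction B using Quot.ind with
    | mk B => rw [gsum_mk, gconj_mk, toBG_mk, toBG_mk, act_mk, fconj_one hU hV hU1 hV1]

theorem comm_one {D : Set ℂ} {k l : ℕ} {U : Matrix (Fin (2 * (k + l))) (Fin (2 * (k + l))) ℂ}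
    {V : Matrix (Fin (k + l)) (Fin (k + l)) ℂ}
    (hU : U ∈ Matrix.unitaryGroup (Fin (2 * (k + l))) ℂ)
    (hV : V ∈ Matrix.unitaryGroup (Fin (k + l)) ℂ)
    (hU1 : ∀ i j, U i j = if i = (shP (2 * k) (2 * l) (2 * (k + l)) (by ring)).symm j then 1 else 0)
    (hV1 : ∀ i j, V i j = if i = (shP k l (k + l) rfl) j then 1 else 0)
    (A : Gr D k) (B : Gr D l) :
    toBG D (k + l) (gconj hU hV (gsum k l (A, B))) = act D l (B, toBG D k A) := by
  induction A using Quot.ind with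
  | mk A =>
    induction B using Quot.ind with
    | mk B =>
      rw [gsum_mk, gconj_mk, toBG_mk, toBG_mk, act_mk,
        sigma_ext (Nat.add_comm k l) _ _ (fconj_perm k l A B hU hV hU1 hV1)]

theorem commMap_cont {D : Set ℂ} {k l : ℕ}
    {u : unitInterval → Matrix (Fin (2 * (k + l))) (Fin (2 * (k + l))) ℂ}
    {v : unitInterval → Matrix (Fin (k + l)) (Fin (k + l)) ℂ} (huc : Continuous u)
    (hvc : Continuous v)
    (hu : ∀ t, u t ∈ Matrix.unitaryGroup (Fin (2 * (k + l))) ℂ)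
    (hv : ∀ t, v t ∈ Matrix.unitaryGroup (Fin (k + l)) ℂ) :
    Continuous fun x : unitInterval × (Gr D k × Gr D l) =>
      toBG D (k + l) (gconj (hu x.1) (hv x.1) (gsum k l x.2)) := by
  have h1 := gconj_cont (D := D) huc hvc hu hv
  have h2 : Continuous fun x : unitInterval × (Gr D k × Gr D l) => (x.1, gsum k l x.2) :=
    continuous_fst.prodMk ((gsum_cont k l).comp continuous_snd)
  have h3 := h1.comp h2
  exact (toBG D (k + l)).continuous.comp h3

/-- The homotopy from `A ⊕ B` to `B ⊕ A`. -/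
theorem comm_homotopy (hpath : ∀ (n : ℕ) (σ : Equiv.Perm (Fin n)),
    ∃ u : C(unitInterval, Matrix (Fin n) (Fin n) ℂ),
      (∀ t, u t ∈ Matrix.unitaryGroup (Fin n) ℂ) ∧ u 0 = 1 ∧
      ∀ i j, u 1 i j = if i = σ j then 1 else 0) (D : Set ℂ) (k l : ℕ) :
    ∃ C : C(unitInterval × (Gr D k × Gr D l), BG D),
      (∀ A B, C (0, (A, B)) = act D k (A, toBG D l B)) ∧
      ∀ A B, C (1, (A, B)) = act D l (B, toBG D k A) := by
  obtain ⟨u, hu, hu0, hu1⟩ := hpath (2 * (k + l))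
    (shP (2 * k) (2 * l) (2 * (k + l)) (by ring)).symm
  obtain ⟨v, hv, hv0, hv1⟩ := hpath (k + l) (shP k l (k + l) rfl)
  have hc := commMap_cont (D := D) u.continuous v.continuous hu hv
  refine ⟨⟨fun x => toBG D (k + l) (gconj (hu x.1) (hv x.1) (gsum k l x.2)), hc⟩, ?_, ?_⟩
  · intro A B
    have h0 := comm_zero (D := D) (hu 0) (hv 0) hu0 hv0 A B
    rw [ContinuousMap.coe_mk]
    exact h0
  · intro A B
    have h0 := comm_one (D := D) (hu 1) (hv 1) hu1 hv1 A B
    rw [ContinuousMap.coe_mk]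
    exact h0

end Pool.Agent.Helper9.Stab
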