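import Pool.Agent.Helper9.Stab.EMap
import Pool.Agent.Helper86.Stab.Lev

/-! The reduced class of a loop. -/

open Topology Filter Set

noncomputable section

namespace Pool.Agent.Helper9.Stab

open Pool.Agent.Helper1.Stab

/-! ## The cube -/

/-- `ℂ^e = ℝ^(2e)` -/
def realE (e : ℕ) : (Fin e → ℂ) ≃ₜ (Fin (2 * e) → ℝ) where
  toFun := realify e
  invFun x := fun i => ⟨x ⟨2 * i.1, by omega⟩, x ⟨2 * i.1 + 1, by omega⟩⟩
  left_inv z := by
    funext i
    apply Complex.ext
    · simp only [realify]
      rw [if_pos (by omega)]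
      congr 2
      exact Fin.ext (by simp)
    · simp only [realify]
      rw [if_neg (by omega)]
      congr 2
      exact Fin.ext (by simp only; omega)
  right_inv x := by
    funext i
    simp only [realify]
    by_cases h : i.1 % 2 = 0
    · rw [if_pos h]
      congr 1
      exact Fin.ext (by simp only; omega)
    · rw [if_neg h]
      congr 1
      exact Fin.ext (by simp only; omega)
  continuous_toFun := by
    refine continuous_pi fun i => ?_
    unfold realify
    by_cases h : i.1 % 2 = 0
    · simp only [if_pos h]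
      exact Complex.continuous_re.comp (continuous_apply _)
    · simp only [if_neg h]
      exact Complex.continuous_im.comp (continuous_apply _)
  continuous_invFun := by
    refine continuous_pi fun i => ?_
    exact mk_cont (continuous_apply _) (continuous_apply _)

/-- the point of the cube of a point of `ℂ^e` -/
def cub (e : ℕ) (w : Fin e → ℂ) : Fin (2 * e) → unitInterval := fun i => squash (realify e w i)

theorem cub_emb (e : ℕ) : IsEmbedding (cub e) :=
  (IsEmbedding.piMap (fun _ : Fin (2 * e) => isEmbedding_squash)).comp (realE e).isEmbedding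

theorem cub_range (e : ℕ) (u : Fin (2 * e) → unitInterval) (h : u ∉ range (cub e)) :
    u ∈ Cube.boundary (Fin (2 * e)) := by
  by_contra hb
  apply h
  have h1 : ∀ i, ∃ t, squash t = u i := by
    intro i
    apply exists_squash
    · intro h0; exact hb ⟨i, Or.inl h0⟩
    · intro h0; exact hb ⟨i, Or.inr h0⟩
  choose t ht using h1
  refine ⟨(realE e).symm t, funext fun i => ?_⟩
  change squash ((realE e) ((realE e).symm t) i) = u i
  rw [Homeomorph.apply_symm_apply, ht]

/-! ## Families of loops as maps of the sphere -/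

section

variable {e : ℕ} {X : Type} [TopologicalSpace X] {x : X}

theorem famBar_cont (Φ : unitInterval × (Fin (2 * e) → unitInterval) → X) (hΦ : Continuous Φ)
    (h : ∀ l u, u ∈ Cube.boundary (Fin (2 * e)) → Φ (l, u) = x) :
    Continuous fun y : unitInterval × OnePoint (Fin e → ℂ) =>
      OnePoint.elim y.2 x (fun w => Φ (y.1, cub e w)) := by
  let V : LC := LC.cpow (Fin e)
  let ι : LC.I.prod V → unitInterval × (Fin (2 * e) → unitInterval) := fun y => (y.1, cub e y.2)
  have hι : IsEmbedding ι := IsEmbedding.id.prodMap (cub_emb e)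
  let A : PMap (LC.I.prod V) ⟨X, x⟩ := PMap.ofEmb (K := LC.I.prod V) (Y := ⟨X, x⟩) ι hι Φ hΦ (by
    rintro ⟨l, u⟩ hp
    apply h
    apply cub_range
    rintro ⟨w, hw⟩
    exact hp ⟨(l, w), by rw [← hw]⟩)
  have h2 := (A.comp ((PMap.id LC.I).box (collL V))).cont
  refine h2.congr ?_
  rintro ⟨l, p⟩
  rcases p with _ | w <;> rfl

/-- a family of loops as a map of the sphere -/
def famBar (Φ : unitInterval × (Fin (2 * e) → unitInterval) → X) (hΦ : Continuous Φ)
    (h : ∀ l u, u ∈ Cube.boundary (Fin (2 * e)) → Φ (l, u) = x) :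
    C(LC.I.prod (cptL (LC.cpow (Fin e))), X) :=
  ⟨fun y => OnePoint.elim y.2 x (fun w => Φ (y.1, cub e w)), famBar_cont Φ hΦ h⟩

theorem loopB_cont (f : GenLoop (Fin (2 * e)) X x) :
    Continuous fun z : OnePoint (Fin e → ℂ) => OnePoint.elim z x (fun z => f (cub e z)) := by
  have h := famBar_cont (e := e) (x := x) (fun y => f y.2) (f.1.continuous.comp continuous_snd)
    (fun l u hu => f.2 u hu)
  have h2 : Continuous fun z : OnePoint (Fin e → ℂ) =>
      ((0 : unitInterval), z) := by fun_prop
  exact h.comp h2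

/-- a loop as a map of the sphere -/
def loopB (f : GenLoop (Fin (2 * e)) X x) : C(OnePoint (Fin e → ℂ), X) :=
  ⟨fun z => OnePoint.elim z x (fun z => f (cub e z)), loopB_cont f⟩

end

/-! ## The height and the stretching -/

/-- the product of the cut-off functions -/
def pf {d : ℕ} (u : Fin d → unitInterval) : ℝ :=
  ∏ i, min 1 (min (4 * (u i : ℝ)) (4 * (1 - u i)))

theorem pf_cont {d : ℕ} : Continuous (pf (d := d)) := by
  unfold pf
  refine continuous_finsetProd _ fun i _ => ?_
  have h : Continuous fun u : Fin d → unitInterval => ((u i : unitInterval) : ℝ) :=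
    continuous_subtype_val.comp (continuous_apply i)
  exact continuous_const.min ((continuous_const.mul h).min
    (continuous_const.mul (continuous_const.sub h)))

theorem pf_factor_nonneg (t : unitInterval) : 0 ≤ min (1 : ℝ) (min (4 * (t : ℝ)) (4 * (1 - t))) := by
  have h1 := t.2.1
  have h2 := t.2.2
  refine le_min (by norm_num) (le_min (by linarith) (by linarith))

theorem pf_nonneg {d : ℕ} (u : Fin d → unitInterval) : 0 ≤ pf u :=
  Finset.prod_nonneg fun i _ => pf_factor_nonneg (u i)

theorem pf_le_one {d : ℕ} (u : Fin d → unitInterval) : pf u ≤ 1 :=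
  Finset.prod_le_one (fun i _ => pf_factor_nonneg (u i)) fun i _ => min_le_left _ _

theorem pf_bd {d : ℕ} {u : Fin d → unitInterval} (h : u ∈ Cube.boundary (Fin d)) : pf u = 0 := by
  obtain ⟨i, hi⟩ := h
  refine Finset.prod_eq_zero (Finset.mem_univ i) ?_
  rcases hi with h | h
  · rw [h]; simp
  · rw [h]; simp

/-- the stretching -/
def st {d : ℕ} (u : Fin d → unitInterval) : Fin d → unitInterval := fun i =>
  Set.projIcc 0 1 zero_le_one (2 * (u i : ℝ) - 1 / 2)

theorem st_cont {d : ℕ} : Continuous (st (d := d)) := by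
  unfold st
  refine continuous_pi fun i => continuous_projIcc.comp ?_
  exact (continuous_const.mul (continuous_subtype_val.comp (continuous_apply i))).sub
    continuous_const

theorem st_bd {d : ℕ} {u : Fin d → unitInterval} (h : pf u ≠ 1) :
    st u ∈ Cube.boundary (Fin d) := by
  by_contra hb
  apply h
  refine Finset.prod_eq_one fun i _ => ?_
  have h2 : ¬ (st u i = 0 ∨ st u i = 1) := fun h3 => hb ⟨i, h3⟩
  rw [not_or] at h2
  have h3 : 1 / 4 < (u i : ℝ) := by
    by_contra h4
    apply h2.1
    unfold st
    exact Set.projIcc_of_le_left _ (by push Not at h4; linarith)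
  have h4 : (u i : ℝ) < 3 / 4 := by
    by_contra h5
    apply h2.2
    unfold st
    exact Set.projIcc_of_right_le _ (by push Not at h5; linarith)
  rw [min_eq_left]
  rw [le_min_iff]
  constructor <;> linarith

theorem bd_st {d : ℕ} {u : Fin d → unitInterval} (h : u ∈ Cube.boundary (Fin d)) :
    st u ∈ Cube.boundary (Fin d) := st_bd (by rw [pf_bd h]; norm_num)

/-- the straight line homotopy from the identity to the stretching -/
def stI {d : ℕ} (l : unitInterval) (u : Fin d → unitInterval) : Fin d → unitInterval := fun i =>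
  Set.projIcc 0 1 zero_le_one ((1 - (l : ℝ)) * (u i : ℝ) + (l : ℝ) * (st u i : ℝ))

theorem stI_cont {d : ℕ} : Continuous fun y : unitInterval × (Fin d → unitInterval) =>
    stI y.1 y.2 := by
  unfold stI
  refine continuous_pi fun i => continuous_projIcc.comp ?_
  have h1 : Continuous fun y : unitInterval × (Fin d → unitInterval) => ((y.1 : unitInterval) : ℝ) :=
    continuous_subtype_val.comp continuous_fst
  have h2 : Continuous fun y : unitInterval × (Fin d → unitInterval) => ((y.2 i : unitInterval) : ℝ) :=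
    continuous_subtype_val.comp ((continuous_apply i).comp continuous_snd)
  have h3 : Continuous fun y : unitInterval × (Fin d → unitInterval) =>
      ((st y.2 i : unitInterval) : ℝ) :=
    continuous_subtype_val.comp ((continuous_apply i).comp (st_cont.comp continuous_snd))
  exact ((continuous_const.sub h1).mul h2).add (h1.mul h3)

theorem stI_zero {d : ℕ} (u : Fin d → unitInterval) : stI 0 u = u := by
  funext i
  unfold stI
  simp only [Set.Icc.coe_zero, sub_zero, one_mul, zero_mul, add_zero]
  exact Set.projIcc_val _ (u i)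

theorem stI_one {d : ℕ} (u : Fin d → unitInterval) : stI 1 u = st u := by
  funext i
  unfold stI
  simp only [Set.Icc.coe_one, sub_self, zero_mul, one_mul, zero_add]
  exact Set.projIcc_val _ (st u i)

theorem stI_bd {d : ℕ} (l : unitInterval) {u : Fin d → unitInterval}
    (h : u ∈ Cube.boundary (Fin d)) : stI l u ∈ Cube.boundary (Fin d) := by
  obtain ⟨i, hi⟩ := h
  refine ⟨i, ?_⟩
  rcases hi with h | h
  · left
    have h1 : st u i = 0 := by
      unfold st
      rw [h]
      exact Set.projIcc_of_le_left _ (by norm_num)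
    unfold stI
    rw [h1, h]
    exact Set.projIcc_of_le_left _ (by simp)
  · right
    have h1 : st u i = 1 := by
      unfold st
      rw [h]
      exact Set.projIcc_of_right_le _ (by norm_num)
    unfold stI
    rw [h1, h]
    exact Set.projIcc_of_right_le _ (by simp)

/-! ## The map of the datum -/

section

variable {κ : Type} [Fintype κ] {e : ℕ} (f : GenLoop (Fin (2 * e)) (GK κ) (GK.base κ))

/-- the product of cut-off functions on the sphere -/
def pS (e : ℕ) : C(cptL (LC.cpow (Fin e)), ℝ) :=
  loopB (e := e) (x := (0 : ℝ)) ⟨⟨pf, pf_cont⟩, fun _ h => pf_bd h⟩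

/-- the stretched loop -/
def stLoop : GenLoop (Fin (2 * e)) (GK κ) (GK.base κ) :=
  ⟨⟨fun u => f (st u), f.1.continuous.comp st_cont⟩, fun _ h => f.2 _ (bd_st h)⟩

theorem pS_nonneg (p : cptL (LC.cpow (Fin e))) : 0 ≤ pS e p := by
  rcases p with _ | w
  · exact le_refl _
  · exact pf_nonneg _

theorem pS_le_one (p : cptL (LC.cpow (Fin e))) : pS e p ≤ 1 := by
  rcases p with _ | w
  · exact zero_le_one
  · exact pf_le_one _

theorem stLoop_base (p : cptL (LC.cpow (Fin e))) (h : pS e p ≠ 1) :
    loopB (stLoop f) p = GK.base κ := by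
  rcases p with _ | w
  · rfl
  · exact f.2 _ (st_bd h)

theorem squash_min (t : ℝ) : min (2 * (squash t : ℝ)) (2 - 2 * (squash t : ℝ)) = 1 / (1 + |t|) := by
  have h0 : 0 < 1 + |t| := by positivity
  have e1 : (squash t : ℝ) = (1 + t / (1 + |t|)) / 2 := rfl
  rw [e1]
  rcases le_total 0 t with ht | ht
  · rw [abs_of_nonneg ht] at *
    have h1 : 0 ≤ t / (1 + t) := by positivity
    rw [min_eq_right (by linarith)]
    field_simp
    ring
  · rw [abs_of_nonpos ht] at *
    have h1 : t / (1 + -t) ≤ 0 := div_nonpos_of_nonpos_of_nonneg ht h0.le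
    rw [min_eq_left (by linarith)]
    have h2 : 1 + -t ≠ 0 := h0.ne'
    field_simp
    ring

theorem squash_le_half (t : ℝ) : (squash t : ℝ) ≤ 1 / 2 ↔ t ≤ 0 := by
  have h0 : 0 < 1 + |t| := by positivity
  have e1 : (squash t : ℝ) = (1 + t / (1 + |t|)) / 2 := rfl
  rw [e1]
  constructor
  · intro h
    have h1 : t / (1 + |t|) ≤ 0 := by linarith
    by_contra ht
    push Not at ht
    have : 0 < t / (1 + |t|) := by positivity
    linarith
  · intro h
    have h1 : t / (1 + |t|) ≤ 0 := div_nonpos_of_nonpos_of_nonneg h h0.le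
    linarith

theorem loopDatumFun_eq (z : ℂ) (w : Fin e → ℂ) :
    loopDatumFun f (Fin.cons z w : Fin (e + 1) → ℂ) =
      OnePoint.elim (Ev (GK.base κ) z (pS e (w : OnePoint (Fin e → ℂ))) 0
        (loopB (stLoop f) (w : OnePoint (Fin e → ℂ)))) OnePoint.infty
        (fun y => (((fun _ => y.1, y.2) : (Fin 1 → ℂ) × GK κ) : OnePoint ((Fin 1 → ℂ) × GK κ))) := by
  classical
  set c : Fin (2 * e + 1) → unitInterval :=
    Fin.cons (squash z.re) (fun i => squash (realify e w i)) with hc
  have e1 : loopDatumFun f (Fin.cons z w : Fin (e + 1) → ℂ) =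
      OnePoint.elim (if height c ∈ Cube.boundary (Fin 1) then OnePoint.infty
        else (((unsquash (height c 0), if (c 0 : ℝ) ≤ 1 / 2 then f (stretch c) else GK.base κ) :
          ℝ × GK κ) : OnePoint (ℝ × GK κ))) OnePoint.infty
        (fun y => (((fun _ => ⟨y.1, z.im⟩, y.2) : (Fin 1 → ℂ) × GK κ) :
          OnePoint ((Fin 1 → ℂ) × GK κ))) := by
    rfl
  have h1 : (height c 0 : ℝ) = pf (cub e w) / (1 + |z.re|) := by
    unfold height
    have e2 : min (2 * (c 0 : ℝ)) (2 - 2 * c 0) = 1 / (1 + |z.re|) := squash_min z.re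
    have e3 : (∏ i : Fin (2 * e), min 1 (min (4 * (c i.succ : ℝ)) (4 * (1 - c i.succ)))) =
        pf (cub e w) := rfl
    rw [e2, e3]
    have h0 : 0 < 1 + |z.re| := by positivity
    have h2 : 1 / (1 + |z.re|) * pf (cub e w) = pf (cub e w) / (1 + |z.re|) := by ring
    rw [h2]
    have h3 : pf (cub e w) / (1 + |z.re|) ∈ Set.Icc (0 : ℝ) 1 := by
      refine ⟨div_nonneg (pf_nonneg _) h0.le, ?_⟩
      rw [div_le_one h0]
      exact (pf_le_one _).trans (by linarith [abs_nonneg z.re])
    rw [Set.projIcc_of_mem _ h3]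
  have h2 : height c ∈ Cube.boundary (Fin 1) ↔
      ¬ (0 < pf (cub e w) / (1 + |z.re|) ∧ pf (cub e w) / (1 + |z.re|) < 1) := by
    have h3 := (height c 0).2
    rw [← h1]
    constructor
    · rintro ⟨i, hi⟩ ⟨h4, h5⟩
      have hi0 : i = 0 := Subsingleton.elim _ _
      subst hi0
      rcases hi with h | h
      · rw [h] at h4
        exact lt_irrefl _ h4
      · rw [h] at h5
        exact lt_irrefl _ h5
    · intro h4
      refine ⟨0, ?_⟩
      by_cases h5 : 0 < (height c 0 : ℝ)
      · right
        apply Subtype.ext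
        exact le_antisymm h3.2 (not_lt.1 fun h6 => h4 ⟨h5, h6⟩)
      · left
        apply Subtype.ext
        exact le_antisymm (not_lt.1 h5) h3.1
  have h3 : (c 0 : ℝ) ≤ 1 / 2 ↔ z.re ≤ 0 := squash_le_half z.re
  have h4 : f (stretch c) = loopB (stLoop f) (w : OnePoint (Fin e → ℂ)) := rfl
  rw [e1]
  unfold Ev
  have h5 : pS e (w : OnePoint (Fin e → ℂ)) = pf (cub e w) := rfl
  rw [h5]
  by_cases hO : 0 < pf (cub e w) / (1 + |z.re|) ∧ pf (cub e w) / (1 + |z.re|) < 1
  · rw [if_pos hO, if_neg (fun h => (h2.1 h) hO), kap_zero, h1, h4]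
    simp only [h3]
    rfl
  · rw [if_neg hO, if_pos (h2.2 hO)]
    rfl

/-- The class of the map of the datum. -/
theorem rho_formula (R : Biv) (ρ : R.Hom (LC.cpow (Fin e)) (LC.G κ))
    (hρ : R.comp (R.J (collL (LC.cpow (Fin e)))) ρ =
      R.J (ofC (K := cptL (LC.cpow (Fin e))) (L := LC.G κ) (loopB f)) -
      R.J (ofC (K := cptL (LC.cpow (Fin e))) (L := LC.G κ)
        (ContinuousMap.const _ (GK.base κ))))
    (a : LC.cpow (Fin (e + 1)) ≃ₜ LC.C.prod (LC.cpow (Fin e)))
    (ha : ∀ z w, a.symm (z, w) = (Fin.cons z w : Fin (e + 1) → ℂ))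
    (b : LC.C.prod (LC.G κ) ≃ₜ (LC.cpow (Fin 1)).prod (LC.G κ))
    (hb : ∀ z g, b (z, g) = (fun _ => z, g)) :
    R.J (loopDatum f).s = R.comp (R.J (PMap.ofHomeo a))
      (R.comp (R.ltens LC.C ρ) (R.J (PMap.ofHomeo b))) := by
  let S : LC := cptL (LC.cpow (Fin e))
  let s : PMap (LC.cpow (Fin (e + 1))) ((LC.cpow (Fin 1)).prod (LC.G κ)).plus := (loopDatum f).s
  let s' : PMap (LC.C.prod (LC.cpow (Fin e))) (LC.C.prod (LC.G κ)).plus :=
    (PMap.ofHomeo (K := (LC.cpow (Fin 1)).prod (LC.G κ)) (L := LC.C.prod (LC.G κ)) b.symm).comp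
      (s.comp (PMap.ofHomeo (K := LC.C.prod (LC.cpow (Fin e))) (L := LC.cpow (Fin (e + 1))) a.symm))
  have hs : s = (PMap.ofHomeo b).comp (s'.comp (PMap.ofHomeo a)) := by
    change s = (PMap.ofHomeo b).comp ((((PMap.ofHomeo _).comp (s.comp (PMap.ofHomeo _)))).comp
      (PMap.ofHomeo a))
    rw [PMap.comp_assoc, PMap.comp_assoc, ofHomeo_symm_comp, PMap.comp_id, ← PMap.comp_assoc,
      ofHomeo_comp_symm, PMap.id_comp]
  have hs' : R.J s' = R.ltens LC.C ρ := by
    let const1 : C(S, ℝ) := ContinuousMap.const _ 1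
    let D1 : PMap (LC.C.prod S) (LC.C.prod (LC.G κ)).plus :=
      s'.comp (PMap.ltens LC.C (collL (LC.cpow (Fin e))))
    have hD1 : ∀ (z : ℂ) (p : S), D1 (z, p) =
        Ev (GK.base κ) z (pS e p) 0 (loopB (stLoop f) p) := by
      intro z p
      rcases p with _ | w
      · have h1 : ¬ (0 < pS e (OnePoint.infty : OnePoint (Fin e → ℂ)) / (1 + |z.re|) ∧
            pS e (OnePoint.infty : OnePoint (Fin e → ℂ)) / (1 + |z.re|) < 1) := by
          rintro ⟨h2, -⟩
          have h3 : pS e (OnePoint.infty : OnePoint (Fin e → ℂ)) = 0 := rfl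
          rw [h3, zero_div] at h2
          exact lt_irrefl _ h2
        exact (if_neg h1).symm
      · have h1 : D1 (z, ((w : Fin e → ℂ) : OnePoint (Fin e → ℂ))) =
            (PMap.ofHomeo (K := (LC.cpow (Fin 1)).prod (LC.G κ)) (L := LC.C.prod (LC.G κ))
              b.symm).plus (s (a.symm (z, w))) := rfl
        have h2 : s (a.symm (z, w)) = _ := (congrArg (loopDatumFun f) (ha z w)).trans
          (loopDatumFun_eq f z w)
        refine Eq.trans h1 ?_
        rw [h2]
        change _ = Ev (GK.base κ) z (pS e (w : OnePoint (Fin e → ℂ))) 0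
          (loopB (stLoop f) (w : OnePoint (Fin e → ℂ)))
        rcases Ev (GK.base κ) z (pS e (w : OnePoint (Fin e → ℂ))) 0
          (loopB (stLoop f) (w : OnePoint (Fin e → ℂ))) with _ | ⟨z', g'⟩
        · rfl
        · change (((b.symm (fun _ => z', g')) : LC.C.prod (LC.G κ)) :
            OnePoint (LC.C.prod (LC.G κ))) = _
          have h3 : b.symm (fun _ => z', g') = (z', g') := by
            rw [Homeomorph.symm_apply_eq, hb]
          rw [h3]
          rfl
    let D2 : PMap (LC.C.prod S) (LC.C.prod (LC.G κ)).plus :=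
      EP (Y := S) (G := LC.G κ) (GK.base κ) const1 (ContinuousMap.const _ 0) (loopB (stLoop f))
        (fun _ => le_refl _) (fun _ => le_refl _) (fun _ => zero_le_one)
        (fun _ h => absurd rfl h)
    let D3 : PMap (LC.C.prod S) (LC.C.prod (LC.G κ)).plus :=
      EP (Y := S) (G := LC.G κ) (GK.base κ) const1 (ContinuousMap.const _ 0) (loopB f)
        (fun _ => le_refl _) (fun _ => le_refl _) (fun _ => zero_le_one)
        (fun _ h => absurd rfl h)
    let D4 : PMap (LC.C.prod S) (LC.C.prod (LC.G κ)).plus :=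
      EP (Y := S) (G := LC.G κ) (GK.base κ) const1 (ContinuousMap.const _ 1) (loopB f)
        (fun _ => le_refl _) (fun _ => zero_le_one) (fun _ => le_refl _)
        (fun _ h => absurd rfl h)
    have h21 : D2.Homotopic D1 := by
      refine EP_homotopic (Y := S) (G := LC.G κ) (GK.base κ)
        ⟨fun y => (1 - (y.1 : ℝ)) + (y.1 : ℝ) * pS e y.2, ?_⟩ (ContinuousMap.const _ 0)
        ⟨fun y => loopB (stLoop f) y.2, (loopB (stLoop f)).continuous.comp continuous_snd⟩
        ?_ (fun _ => le_refl _) (fun _ => zero_le_one) ?_ D2 D1 ?_ ?_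
      · have h1 : Continuous fun y : LC.I.prod S => ((y.1 : unitInterval) : ℝ) :=
          continuous_subtype_val.comp continuous_fst
        have h2 : Continuous fun y : LC.I.prod S => pS e y.2 :=
          (pS e).continuous.comp continuous_snd
        exact (continuous_const.sub h1).add (h1.mul h2)
      · intro y
        change (1 - ((y.1 : unitInterval) : ℝ)) + ((y.1 : unitInterval) : ℝ) * pS e y.2 ≤ 1
        have h1 := pS_le_one (e := e) y.2
        have h2 := (y.1 : unitInterval).2.1
        nlinarith
      · intro y hy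
        apply stLoop_base
        intro h1
        apply hy
        change (1 - ((y.1 : unitInterval) : ℝ)) + ((y.1 : unitInterval) : ℝ) * pS e y.2 = 1
        rw [h1]
        ring
      · intro z p
        change Ev (GK.base κ) z 1 0 (loopB (stLoop f) p) = Ev (GK.base κ) z
          ((1 - ((0 : unitInterval) : ℝ)) + ((0 : unitInterval) : ℝ) * pS e p) 0
          (loopB (stLoop f) p)
        congr 1
        simp
      · intro z p
        rw [hD1]
        change _ = Ev (GK.base κ) z
          ((1 - ((1 : unitInterval) : ℝ)) + ((1 : unitInterval) : ℝ) * pS e p) 0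
          (loopB (stLoop f) p)
        congr 1
        simp
    have h32 : D3.Homotopic D2 := by
      refine EP_homotopic (Y := S) (G := LC.G κ) (GK.base κ) (ContinuousMap.const _ 1)
        (ContinuousMap.const _ 0)
        (famBar (e := e) (x := GK.base κ) (fun y => f (stI y.1 y.2))
          (f.1.continuous.comp stI_cont) (fun l u hu => f.2 _ (stI_bd l hu)))
        (fun _ => le_refl _) (fun _ => le_refl _) (fun _ => zero_le_one)
        (fun _ h => absurd rfl h) D3 D2 ?_ ?_
      · intro z p
        change Ev (GK.base κ) z 1 0 (loopB f p) = Ev (GK.base κ) z 1 0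
          (OnePoint.elim p (GK.base κ) (fun w => f (stI 0 (cub e w))))
        congr 1
        rcases p with _ | w
        · rfl
        · change f (cub e w) = f (stI 0 (cub e w))
          rw [stI_zero]
      · intro z p
        change Ev (GK.base κ) z 1 0 (loopB (stLoop f) p) = Ev (GK.base κ) z 1 0
          (OnePoint.elim p (GK.base κ) (fun w => f (stI 1 (cub e w))))
        congr 1
        rcases p with _ | w
        · rfl
        · change f (st (cub e w)) = f (stI 1 (cub e w))
          rw [stI_one]
    have h34 : D3.Homotopic D4 := by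
      refine EP_homotopic (Y := S) (G := LC.G κ) (GK.base κ) (ContinuousMap.const _ 1)
        ⟨fun y => ((y.1 : unitInterval) : ℝ), continuous_subtype_val.comp continuous_fst⟩
        ⟨fun y => loopB f y.2, (loopB f).continuous.comp continuous_snd⟩
        (fun _ => le_refl _) (fun y => (y.1 : unitInterval).2.1)
        (fun y => (y.1 : unitInterval).2.2) (fun _ h => absurd rfl h) D3 D4 ?_ ?_
      · intro z p
        rfl
      · intro z p
        rfl
    let cf : PMap S (LC.G κ).plus := ofC (K := S) (L := LC.G κ) (loopB f)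
    let cc : PMap S (LC.G κ).plus := ofC (K := S) (L := LC.G κ) (ContinuousMap.const _ (GK.base κ))
    have h4 : D4 = ((PMap.ltens LC.C cf).copair ((PMap.ofHomeo negre).box cc)).comp
        (pinchK S) := by
      ext ⟨z, p⟩
      change Ev (GK.base κ) z 1 1 (loopB f p) =
        ((PMap.ltens LC.C cf).copair ((PMap.ofHomeo negre).box cc)).plus
          ((PMap.ofHomeo (dist LC.C LC.C S)).plus
            (smashPt (LC.C.sum LC.C) S (pinch z, (p : OnePoint S))))
      unfold Ev
      have h0 : 0 < 1 + |z.re| := by positivity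
      rcases lt_trichotomy z.re 0 with hz | hz | hz
      · have h1 : 0 < 1 / (1 + |z.re|) ∧ 1 / (1 + |z.re|) < 1 := by
          refine ⟨by positivity, ?_⟩
          rw [div_lt_one h0]
          have := abs_pos.2 hz.ne
          linarith
        rw [if_pos h1, pinch_apply_neg hz, if_pos hz.le, kap_one]
        have h2 : MV.toReal (1 / (1 + |z.re|)) = z.re - 1 / z.re := by
          rw [abs_of_neg hz]
          unfold MV.toReal
          have h3 : z.re ≠ 0 := hz.ne
          have h4 : (1 : ℝ) + -z.re ≠ 0 := by linarith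
          have h5 : 1 - 1 / (1 + -z.re) = - z.re / (1 + -z.re) := by
            field_simp
            ring
          rw [h5]
          field_simp
          ring
        rw [h2]
        rfl
      · have h1 : ¬ (0 < 1 / (1 + |z.re|) ∧ 1 / (1 + |z.re|) < 1) := by
          rintro ⟨-, h2⟩
          rw [hz] at h2
          norm_num at h2
        rw [if_neg h1, pinch_apply_zero hz]
        rfl
      · have h1 : 0 < 1 / (1 + |z.re|) ∧ 1 / (1 + |z.re|) < 1 := by
          refine ⟨by positivity, ?_⟩
          rw [div_lt_one h0]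
          have := abs_pos.2 hz.ne'
          linarith
        rw [if_pos h1, pinch_apply_pos hz, if_neg (not_le.2 hz), kap_one]
        have h2 : MV.toReal (1 / (1 + |z.re|)) = -(z.re - 1 / z.re) := by
          rw [abs_of_pos hz]
          unfold MV.toReal
          have h3 : z.re ≠ 0 := hz.ne'
          have h4 : (1 : ℝ) + z.re ≠ 0 := by linarith
          have h5 : 1 - 1 / (1 + z.re) = z.re / (1 + z.re) := by
            field_simp
            ring
          rw [h5]
          field_simp
          ring
        rw [h2]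
        rfl
    have h5 : R.J D1 = R.J (PMap.ltens LC.C cf) - R.J (PMap.ltens LC.C cc) := by
      rw [← R.J_homotopic h21, ← R.J_homotopic h32, R.J_homotopic h34, h4, J_pinch]
      have h6 : (PMap.ofHomeo negre).box cc = (PMap.ltens LC.C cc).comp
          ((PMap.ofHomeo negre).tens S) := by
        rw [← PMap.box_comp, PMap.id_comp, PMap.comp_id]
      rw [h6, R.J_comp, J_negre, neg_c, R.id_comp, sub_eq_add_neg]
    apply sph_inj_ltens R LC.C
    rw [← R.J_comp]
    change R.J D1 = _
    rw [h5, ← ltens_J R LC.C (collL _), ← ltens_comp, hρ, ltens_sub, ltens_J, ltens_J]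
  change R.J s = _
  rw [hs, R.J_comp, R.J_comp, hs', R.assoc]

end

end Pool.Agent.Helper9.Stab
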