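import Pool.Agent.Helper1.Stab.Biv
import Pool.Agent.Helper68.Stab.Cogroup

/-! Formal consequences of the axioms of a bivariant theory. -/

open Topology Filter Set

noncomputable section

namespace Pool.Agent.Helper9.Stab

open Pool.Agent.Helper1.Stab

/-! ## Homeomorphisms -/

theorem ofHomeo_comp {K L M : LC} (e : K ≃ₜ L) (e' : L ≃ₜ M) :
    (PMap.ofHomeo e').comp (PMap.ofHomeo e) = PMap.ofHomeo (K := K) (L := M) (e.trans e') := by
  ext k; rfl

theorem ofHomeo_symm_comp {K L : LC} (e : K ≃ₜ L) :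
    (PMap.ofHomeo (K := L) (L := K) e.symm).comp (PMap.ofHomeo e) = PMap.id K := by
  ext k
  exact congrArg (fun x : K => (x : OnePoint K)) (e.symm_apply_apply k)

theorem ofHomeo_comp_symm {K L : LC} (e : K ≃ₜ L) :
    (PMap.ofHomeo e).comp (PMap.ofHomeo (K := L) (L := K) e.symm) = PMap.id L := by
  ext k
  exact congrArg (fun x : L => (x : OnePoint L)) (e.apply_symm_apply k)

variable (R : Biv)

/-! ## Additive structure -/

/-- precomposition -/
def preH {K L : LC} (x : R.Hom K L) (M : LC) : R.Hom L M →+ R.Hom K M :=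
  AddMonoidHom.mk' (fun y => R.comp x y) (R.comp_add x)

/-- postcomposition -/
def postH {L M : LC} (y : R.Hom L M) (K : LC) : R.Hom K L →+ R.Hom K M :=
  AddMonoidHom.mk' (fun x => R.comp x y) (fun x x' => R.add_comp x x' y)

theorem c_zero {K L M : LC} (x : R.Hom K L) : R.comp x (0 : R.Hom L M) = 0 :=
  map_zero (preH R x M)

theorem z_comp {K L M : LC} (y : R.Hom L M) : R.comp (0 : R.Hom K L) y = 0 :=
  map_zero (postH R y K)

theorem c_sub {K L M : LC} (x : R.Hom K L) (y y' : R.Hom L M) :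
    R.comp x (y - y') = R.comp x y - R.comp x y' := map_sub (preH R x M) y y'

theorem sub_c {K L M : LC} (x x' : R.Hom K L) (y : R.Hom L M) :
    R.comp (x - x') y = R.comp x y - R.comp x' y := map_sub (postH R y K) x x'

theorem c_neg {K L M : LC} (x : R.Hom K L) (y : R.Hom L M) :
    R.comp x (-y) = - R.comp x y := map_neg (preH R x M) y

theorem neg_c {K L M : LC} (x : R.Hom K L) (y : R.Hom L M) :
    R.comp (-x) y = - R.comp x y := map_neg (postH R y K) x

/-! ## Products on the left -/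

theorem ltens_J (Z : LC) {K L : LC} (f : PMap K L.plus) :
    R.ltens Z (R.J f) = R.J (PMap.ltens Z f) := by
  have h : ((PMap.ofHomeo (LC.swap L Z)).comp (f.tens Z)).comp (PMap.ofHomeo (LC.swap Z K)) =
      PMap.ltens Z f := by
    rw [PMap.box_swap, PMap.comp_assoc]
    exact congrArg (PMap.ltens Z f).comp (ofHomeo_comp_symm (LC.swap K Z))
  unfold BivData.ltens
  rw [R.tens_J, ← R.J_comp, ← R.J_comp, h]

theorem ltens_comp (Z : LC) {K L M : LC} (x : R.Hom K L) (y : R.Hom L M) :
    R.ltens Z (R.comp x y) = R.comp (R.ltens Z x) (R.ltens Z y) := by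
  unfold BivData.ltens
  rw [R.tens_comp, R.assoc, R.assoc, R.assoc]
  congr 2
  rw [← R.assoc (R.J (PMap.ofHomeo (LC.swap L Z))) (R.J (PMap.ofHomeo (LC.swap Z L))),
    ← R.J_comp]
  have h := ofHomeo_comp_symm (LC.swap Z L)
  have h2 : (PMap.ofHomeo (LC.swap Z L)).comp (PMap.ofHomeo (LC.swap L Z)) =
    PMap.id (L.prod Z) := h
  rw [h2, R.id_comp]

theorem ltens_add (Z : LC) {K L : LC} (x y : R.Hom K L) :
    R.ltens Z (x + y) = R.ltens Z x + R.ltens Z y := by
  unfold BivData.ltens
  rw [R.tens_add, R.add_comp, R.comp_add]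

/-- product on the left, as a homomorphism -/
def ltensH (Z K L : LC) : R.Hom K L →+ R.Hom (Z.prod K) (Z.prod L) :=
  AddMonoidHom.mk' (fun x => R.ltens Z x) (ltens_add R Z)

theorem ltens_sub (Z : LC) {K L : LC} (x y : R.Hom K L) :
    R.ltens Z (x - y) = R.ltens Z x - R.ltens Z y := map_sub (ltensH R Z K L) x y

theorem ltens_id (Z K : LC) : R.ltens Z (R.J (PMap.id K)) = R.J (PMap.id (Z.prod K)) := by
  rw [ltens_J]
  exact congrArg R.J (PMap.box_id Z K)

/-! ## Empty spaces and sums -/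

theorem hom_empty {K L : LC} (hK : IsEmpty K) (x : R.Hom K L) : x = 0 := by
  have h : PMap.id K = PMap.zero K K.plus := by
    ext k
    exact (hK.false k).elim
  rw [← R.id_comp x, h, R.J_zero, z_comp]

/-- the function that separates the two copies -/
def sepU (K : LC) : C(K.sum K, ℝ) :=
  ⟨Sum.elim (fun _ => -1) (fun _ => 2), continuous_const.sumElim continuous_const⟩

/-- the first copy -/
def sepA (K : LC) : MV.A (sepU K) ≃ₜ K where
  toFun x := Sum.elim (fun k => k) (fun k => k) x.1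
  invFun k := ⟨Sum.inl k, show (-1 : ℝ) ≤ 1 by norm_num⟩
  left_inv := by
    rintro ⟨k | k, hk⟩
    · rfl
    · exact absurd (show (2 : ℝ) ≤ 1 from hk) (by norm_num)
  right_inv _ := rfl
  continuous_toFun := (continuous_id.sumElim continuous_id).comp continuous_subtype_val
  continuous_invFun := continuous_inl.subtype_mk _

/-- the second copy -/
def sepB (K : LC) : MV.B (sepU K) ≃ₜ K where
  toFun x := Sum.elim (fun k => k) (fun k => k) x.1
  invFun k := ⟨Sum.inr k, show (0 : ℝ) ≤ 2 by norm_num⟩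
  left_inv := by
    rintro ⟨k | k, hk⟩
    · exact absurd (show (0 : ℝ) ≤ -1 from hk) (by norm_num)
    · rfl
  right_inv _ := rfl
  continuous_toFun := (continuous_id.sumElim continuous_id).comp continuous_subtype_val
  continuous_invFun := continuous_inr.subtype_mk _

theorem sepC (K : LC) : IsEmpty (MV.C (sepU K)) := by
  refine ⟨?_⟩
  rintro ⟨k | k, hk⟩
  · exact absurd (show (0 : ℝ) ≤ -1 from hk.1) (by norm_num)
  · exact absurd (show (2 : ℝ) ≤ 1 from hk.2) (by norm_num)

/-- A class on `K ⊔ K` is determined by its restrictions. -/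
theorem sum_zero {K L : LC} (x : R.Hom (K.sum K) L) (h1 : R.comp (R.J (PMap.inl K K)) x = 0)
    (h2 : R.comp (R.J (PMap.inr K K)) x = 0) : x = 0 := by
  obtain ⟨y, hy⟩ := R.mv1 (sepU K) x
    (by
      have e : MV.iA (sepU K) = (PMap.inl K K).comp (PMap.ofHomeo (sepA K)) := by
        ext s
        obtain ⟨k | k, hk⟩ := s
        · rfl
        · exact absurd (show (2 : ℝ) ≤ 1 from hk) (by norm_num)
      rw [e, R.J_comp, R.assoc, h1, c_zero])
    (by
      have e : MV.iB (sepU K) = (PMap.inr K K).comp (PMap.ofHomeo (sepB K)) := by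
        ext s
        obtain ⟨k | k, hk⟩ := s
        · exact absurd (show (0 : ℝ) ≤ -1 from hk) (by norm_num)
        · rfl
      rw [e, R.J_comp, R.assoc, h2, c_zero])
  rw [hy, hom_empty R (K := LC.R.prod (MV.C (sepU K))) ⟨fun z => (sepC K).false z.2⟩ y, c_zero]

/-- The pinch map adds. -/
theorem pinch_add {K L : LC} (x : R.Hom ((LC.C.prod K).sum (LC.C.prod K)) L) :
    R.comp (R.J (pinchK K)) x = R.comp (R.J (PMap.inl _ _)) x + R.comp (R.J (PMap.inr _ _)) x := by
  set a := R.comp (R.J (PMap.inl (LC.C.prod K) (LC.C.prod K))) x with ha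
  set b := R.comp (R.J (PMap.inr (LC.C.prod K) (LC.C.prod K))) x with hb
  let c1 : PMap ((LC.C.prod K).sum (LC.C.prod K)) (LC.C.prod K).plus :=
    (PMap.id (LC.C.prod K)).copair (PMap.zero _ _)
  let c2 : PMap ((LC.C.prod K).sum (LC.C.prod K)) (LC.C.prod K).plus :=
    (PMap.zero _ _).copair (PMap.id (LC.C.prod K))
  have h11 : R.comp (R.J (PMap.inl (LC.C.prod K) (LC.C.prod K))) (R.comp (R.J c1) a) = a := by
    rw [← R.assoc, ← R.J_comp]
    exact R.id_comp a
  have h12 : R.comp (R.J (PMap.inr (LC.C.prod K) (LC.C.prod K))) (R.comp (R.J c1) a) = 0 := by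
    rw [← R.assoc, ← R.J_comp]
    have e : c1.comp (PMap.inr (LC.C.prod K) (LC.C.prod K)) = PMap.zero _ _ := by ext k; rfl
    rw [e, R.J_zero, z_comp]
  have h21 : R.comp (R.J (PMap.inl (LC.C.prod K) (LC.C.prod K))) (R.comp (R.J c2) b) = 0 := by
    rw [← R.assoc, ← R.J_comp]
    have e : c2.comp (PMap.inl (LC.C.prod K) (LC.C.prod K)) = PMap.zero _ _ := by ext k; rfl
    rw [e, R.J_zero, z_comp]
  have h22 : R.comp (R.J (PMap.inr (LC.C.prod K) (LC.C.prod K))) (R.comp (R.J c2) b) = b := by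
    rw [← R.assoc, ← R.J_comp]
    exact R.id_comp b
  have hx : x = R.comp (R.J c1) a + R.comp (R.J c2) b := by
    rw [← sub_eq_zero]
    apply sum_zero
    · rw [c_sub, R.comp_add, h11, h21, add_zero, ← ha, sub_self]
    · rw [c_sub, R.comp_add, h12, h22, zero_add, ← hb, sub_self]
  have e1 : R.comp (R.J (pinchK K)) (R.comp (R.J c1) a) = a := by
    rw [← R.assoc, ← R.J_comp, R.J_homotopic (pinchK_unit_left K), R.id_comp]
  have e2 : R.comp (R.J (pinchK K)) (R.comp (R.J c2) b) = b := by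
    rw [← R.assoc, ← R.J_comp, R.J_homotopic (pinchK_unit_right K), R.id_comp]
  rw [hx, R.comp_add, e1, e2]

/-- The pinch map adds. -/
theorem J_pinch {K L : LC} (f g : PMap (LC.C.prod K) L.plus) :
    R.J ((f.copair g).comp (pinchK K)) = R.J f + R.J g := by
  rw [R.J_comp, pinch_add, ← R.J_comp, ← R.J_comp]
  rfl

/-- The reflection of the real coordinate is `-1`. -/
theorem J_negre (K : LC) :
    R.J ((PMap.ofHomeo negre).tens K) = - R.J (PMap.id (LC.C.prod K)) := by
  have h := R.J_homotopic (pinchK_neg K)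
  rw [J_pinch, R.J_zero] at h
  exact eq_neg_of_add_eq_zero_right h

end Pool.Agent.Helper9.Stab
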