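import Pool.Agent.Helper9.Stab.BivL
import Pool.Agent.Helper1.Stab.Grass

/-! The splitting of a point with a contractible neighbourhood. -/

open Topology Filter Set

noncomputable section

namespace Pool.Agent.Helper9.Stab

open Pool.Agent.Helper1.Stab

section

variable {K : LC} (p : K) (u : C(K, ℝ)) (hp : 1 < u p)

/-- the complement of a point -/
abbrev mn (p : K) : LC := K.opn {p}ᶜ isOpen_compl_singleton

/-- the collapse onto the complement of a point -/
abbrev cl (p : K) : PMap K (mn p).plus := PMap.collapse _ isOpen_compl_singleton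

/-- the restriction of `u` -/
abbrev uM : C(mn p, ℝ) := u.comp (⟨Subtype.val, continuous_subtype_val⟩ : C(mn p, K))

theorem cl_pt : cl p p = OnePoint.infty := collapseFun_of_notMem (by simp)

theorem cl_ne (k : K) (hk : k ∈ ({p}ᶜ : Set K)) :
    cl p k = OnePoint.some (X := mn p) ⟨k, hk⟩ :=
  collapseFun_of_mem (⟨k, hk⟩ : ({p}ᶜ : Set K))

include hp in
theorem ne_of_le {k : K} (h : u k ≤ 1) : k ∈ ({p}ᶜ : Set K) := by
  intro h2
  rw [mem_singleton_iff] at h2
  rw [h2] at h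
  exact absurd h (not_le.2 hp)

/-- the part `A` -/
def hA' : MV.A (uM p u) ≃ₜ MV.A u where
  toFun x := ⟨x.1.1, x.2⟩
  invFun x := ⟨⟨x.1, ne_of_le p u hp x.2⟩, x.2⟩
  left_inv _ := rfl
  right_inv _ := rfl
  continuous_toFun := (continuous_subtype_val.comp continuous_subtype_val).subtype_mk _
  continuous_invFun := (continuous_subtype_val.subtype_mk _).subtype_mk _

/-- the part `C` -/
def hC' : MV.C (uM p u) ≃ₜ MV.C u where
  toFun x := ⟨x.1.1, x.2⟩
  invFun x := ⟨⟨x.1, ne_of_le p u hp x.2.2⟩, x.2⟩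
  left_inv _ := rfl
  right_inv _ := rfl
  continuous_toFun := (continuous_subtype_val.comp continuous_subtype_val).subtype_mk _
  continuous_invFun := (continuous_subtype_val.subtype_mk _).subtype_mk _

theorem opB_open : IsOpen {x : MV.B u | x.1 ∈ ({p}ᶜ : Set K)} :=
  isOpen_compl_singleton.preimage continuous_subtype_val

/-- the part `B` without the point -/
def hB' : (MV.B u).opn {x : MV.B u | x.1 ∈ ({p}ᶜ : Set K)} (opB_open p u) ≃ₜ MV.B (uM p u) where
  toFun x := ⟨⟨x.1.1, x.2⟩, x.1.2⟩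
  invFun x := ⟨⟨x.1.1, x.2⟩, x.1.2⟩
  left_inv _ := rfl
  right_inv _ := rfl
  continuous_toFun :=
    ((continuous_subtype_val.comp continuous_subtype_val).subtype_mk _).subtype_mk _
  continuous_invFun :=
    ((continuous_subtype_val.comp continuous_subtype_val).subtype_mk _).subtype_mk _

/-- the collapse of `B` -/
def clB : PMap (MV.B u) (MV.B (uM p u)).plus :=
  (PMap.ofHomeo (K := (MV.B u).opn {x : MV.B u | x.1 ∈ ({p}ᶜ : Set K)} (opB_open p u))
    (L := MV.B (uM p u)) (hB' p u)).comp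
    (PMap.collapse {x : MV.B u | x.1 ∈ ({p}ᶜ : Set K)} (opB_open p u))

theorem cl_iB : (cl p).comp (MV.iB u) = (MV.iB (uM p u)).comp (clB p u) := by
  ext x
  by_cases hx : x.1 ∈ ({p}ᶜ : Set K)
  · have h1 : clB p u x = OnePoint.some (X := MV.B (uM p u)) ⟨⟨x.1, hx⟩, x.2⟩ := by
      unfold clB
      rw [PMap.comp_apply]
      have h2 : PMap.collapse {x : MV.B u | x.1 ∈ ({p}ᶜ : Set K)} (opB_open p u) x =
          OnePoint.some (X := (MV.B u).opn {x : MV.B u | x.1 ∈ ({p}ᶜ : Set K)} (opB_open p u))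
            ⟨x, hx⟩ :=
        collapseFun_of_mem (⟨x, hx⟩ : {x : MV.B u | x.1 ∈ ({p}ᶜ : Set K)})
      rw [h2]
      rfl
    rw [PMap.comp_apply, PMap.comp_apply, h1]
    exact cl_ne p x.1 hx
  · have h1 : clB p u x = OnePoint.infty := by
      unfold clB
      rw [PMap.comp_apply]
      have h2 : PMap.collapse {x : MV.B u | x.1 ∈ ({p}ᶜ : Set K)} (opB_open p u) x =
          OnePoint.infty := collapseFun_of_notMem hx
      rw [h2]
      rfl
    rw [PMap.comp_apply, PMap.comp_apply, h1]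
    have h3 : x.1 = p := by simpa using hx
    change cl p x.1 = OnePoint.infty
    rw [h3]
    exact cl_pt p

theorem cl_delta : (MV.delta (uM p u)).comp (cl p) =
    (PMap.ltens LC.R (PMap.ofHomeo (K := MV.C u) (L := MV.C (uM p u)) (hC' p u hp).symm)).comp
      (MV.delta u) := by
  ext k
  by_cases hk : k ∈ ({p}ᶜ : Set K)
  · rw [PMap.comp_apply, PMap.comp_apply, cl_ne p k hk]
    change MV.deltaFun (uM p u) ⟨k, hk⟩ = (PMap.ltens LC.R (PMap.ofHomeo (K := MV.C u)
      (L := MV.C (uM p u)) (hC' p u hp).symm)).plus (MV.deltaFun u k)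
    unfold MV.deltaFun
    by_cases h : 0 < u k ∧ u k < 1
    · rw [dif_pos h]
      have h' : 0 < uM p u ⟨k, hk⟩ ∧ uM p u ⟨k, hk⟩ < 1 := h
      rw [dif_pos h']
      rfl
    · rw [dif_neg h]
      have h' : ¬ (0 < uM p u ⟨k, hk⟩ ∧ uM p u ⟨k, hk⟩ < 1) := h
      rw [dif_neg h']
      rfl
  · have hk' : k = p := by simpa using hk
    subst hk'
    rw [PMap.comp_apply, PMap.comp_apply, cl_pt]
    change OnePoint.infty = (PMap.ltens LC.R (PMap.ofHomeo (K := MV.C u)
      (L := MV.C (uM k u)) (hC' k u hp).symm)).plus (MV.deltaFun u k)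
    unfold MV.deltaFun
    rw [dif_neg (fun h => absurd hp (not_lt.2 h.2.le))]
    rfl

theorem hA_iCA : (PMap.ofHomeo (K := MV.A (uM p u)) (L := MV.A u) (hA' p u hp)).comp
      (MV.iCA (uM p u)) =
    (MV.iCA u).comp (PMap.ofHomeo (K := MV.C (uM p u)) (L := MV.C u) (hC' p u hp)) := by
  ext k; rfl

theorem cl_iA : ((cl p).comp (MV.iA u)).comp
    (PMap.ofHomeo (K := MV.A (uM p u)) (L := MV.A u) (hA' p u hp)) = MV.iA (uM p u) := by
  ext k
  exact cl_ne p k.1.1 k.1.2

theorem iA_iCA' {M : LC} (v : C(M, ℝ)) : (MV.iA v).comp (MV.iCA v) = (MV.iB v).comp (MV.iCB v) := by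
  ext k; rfl

variable (R : Biv) [CompactSpace K]

instance compactB' : CompactSpace (MV.B u) :=
  isCompact_iff_compactSpace.1 (MV.clB u).isCompact

/-- the point `p` in `B` -/
def pB' : PMap LC.point (MV.B u).plus :=
  PMap.ofPoint (K := MV.B u) ⟨p, (zero_lt_one.trans hp).le⟩

include hp in
/-- A class on `K` that vanishes at `p` comes from the complement. -/
theorem cl_exact
    (hN : (PMap.id (MV.B u)).Homotopic ((pB' p u hp).comp (PMap.toPoint (MV.B u)))) {L : LC}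
    (x : R.Hom K L) (h : R.comp (R.J (PMap.ofPoint (K := K) p)) x = 0) :
    ∃ y : R.Hom (mn p) L, x = R.comp (R.J (cl p)) y := by
  have hxB : R.comp (R.J (MV.iB u)) x = 0 := by
    rw [← R.id_comp (R.comp (R.J (MV.iB u)) x), R.J_homotopic hN,
      R.J_comp, R.assoc, ← R.assoc (R.J (pB' p u hp)), ← R.J_comp]
    have e : (MV.iB u).comp (pB' p u hp) = PMap.ofPoint (K := K) p := by
      ext k; rfl
    rw [e, h, c_zero]
  set eA : PMap (MV.A (uM p u)) (MV.A u).plus := PMap.ofHomeo (hA' p u hp) with heA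
  set eC : PMap (MV.C (uM p u)) (MV.C u).plus := PMap.ofHomeo (hC' p u hp) with heC
  obtain ⟨y, hyA, hyB⟩ := R.mv2 (uM p u) (R.comp (R.J eA) (R.comp (R.J (MV.iA u)) x)) 0 (by
    rw [c_zero, ← R.assoc, ← R.J_comp, hA_iCA, R.J_comp, R.assoc, ← R.assoc (R.J (MV.iCA _)),
      ← R.J_comp, iA_iCA', R.J_comp, R.assoc, hxB, c_zero, c_zero])
  have hA : R.comp (R.J (MV.iA u)) (R.comp (R.J (cl p)) y) =
      R.comp (R.J (MV.iA u)) x := by
    have e1 : R.comp (R.J eA) (R.comp (R.J (MV.iA u)) (R.comp (R.J (cl p)) y)) =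
        R.comp (R.J eA) (R.comp (R.J (MV.iA u)) x) := by
      rw [← hyA, ← R.assoc (R.J (MV.iA u)), ← R.J_comp, ← R.assoc, ← R.J_comp, cl_iA]
    have e2 : ∀ z : R.Hom (MV.A u) L, R.comp (R.J (PMap.ofHomeo (K := MV.A u)
        (L := MV.A (uM p u)) (hA' p u hp).symm)) (R.comp (R.J eA) z) = z := by
      intro z
      rw [← R.assoc, ← R.J_comp, heA, ofHomeo_comp_symm, R.id_comp]
    rw [← e2 (R.comp (R.J (MV.iA u)) (R.comp (R.J (cl p)) y)), e1, e2]
  have hB' : R.comp (R.J (MV.iB u)) (R.comp (R.J (cl p)) y) = 0 := by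
    rw [← R.assoc, ← R.J_comp, cl_iB, R.J_comp, R.assoc, hyB, c_zero]
  obtain ⟨w, hw⟩ := R.mv1 u (x - R.comp (R.J (cl p)) y)
    (by rw [c_sub, hA, sub_self]) (by rw [c_sub, hxB, hB', sub_self])
  have hw2 : R.comp (R.J (MV.delta u)) w =
      R.comp (R.J (cl p)) (R.comp (R.J (MV.delta (uM p u)))
        (R.comp (R.J (PMap.ltens LC.R eC)) w)) := by
    rw [← R.assoc (R.J (cl p)), ← R.J_comp, cl_delta p u hp, R.J_comp, R.assoc,
      ← R.assoc (R.J (PMap.ltens LC.R _)), ← R.J_comp, ← PMap.box_comp]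
    have e3 : eC.comp (PMap.ofHomeo (K := MV.C u) (L := MV.C (uM p u)) (hC' p u hp).symm) =
        PMap.id _ := ofHomeo_comp_symm (K := MV.C (uM p u)) (L := MV.C u) (hC' p u hp)
    rw [e3, PMap.comp_id, PMap.box_id, R.id_comp]
  refine ⟨y + R.comp (R.J (MV.delta (uM p u))) (R.comp (R.J (PMap.ltens LC.R eC)) w), ?_⟩
  rw [R.comp_add, ← hw2, ← hw]
  abel

include hp in
/-- A class on the complement that vanishes on `K` vanishes. -/
theorem cl_inj
    (hN : (PMap.id (MV.B u)).Homotopic ((pB' p u hp).comp (PMap.toPoint (MV.B u))))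
    (hB : (PMap.id (MV.B (uM p u))).Homotopic (PMap.zero _ _)) {L : LC}
    (x : R.Hom (mn p) L) (h : R.comp (R.J (cl p)) x = 0) : x = 0 := by
  haveI : CompactSpace (MV.A u) := isCompact_iff_compactSpace.1 (MV.clA u).isCompact
  haveI : CompactSpace (MV.A (uM p u)) := (hA' p u hp).symm.compactSpace
  set eC : PMap (MV.C (uM p u)) (MV.C u).plus := PMap.ofHomeo (hC' p u hp) with heC
  obtain ⟨y, hy⟩ := R.mv1 (uM p u) x
    (by rw [← cl_iA p u hp, R.J_comp, R.J_comp, R.assoc, R.assoc, h, c_zero, c_zero])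
    (by rw [← R.id_comp (R.comp (R.J (MV.iB (uM p u))) x), R.J_homotopic hB, R.J_zero, z_comp])
  have h1 : R.comp (R.J (MV.delta u)) (R.comp (R.J (PMap.ltens LC.R
      (PMap.ofHomeo (K := MV.C u) (L := MV.C (uM p u)) (hC' p u hp).symm))) y) = 0 := by
    rw [← R.assoc, ← R.J_comp, ← cl_delta, R.J_comp, R.assoc, ← hy, h]
  obtain ⟨s, t, hst⟩ := R.mv3 u _ h1
  have h2 : y = R.comp (R.J (PMap.ltens LC.R ((MV.iCA u).comp eC))) s -
      R.comp (R.J (PMap.ltens LC.R ((MV.iCB u).comp eC))) t := by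
    have h3 := congrArg (fun z => R.comp (R.J (PMap.ltens LC.R eC)) z) hst
    rw [c_sub, ← R.assoc, ← R.assoc, ← R.assoc, ← R.J_comp, ← R.J_comp, ← R.J_comp,
      ← PMap.box_comp, ← PMap.box_comp, ← PMap.box_comp, PMap.comp_id] at h3
    have e3 : (PMap.ofHomeo (K := MV.C u) (L := MV.C (uM p u)) (hC' p u hp).symm).comp eC =
        PMap.id _ := ofHomeo_symm_comp (K := MV.C (uM p u)) (L := MV.C u) (hC' p u hp)
    rw [e3, PMap.box_id, R.id_comp] at h3
    exact h3
  have h4 : R.comp (R.J (MV.delta (uM p u))) (R.J (PMap.ltens LC.R (MV.iCA (uM p u)))) = 0 := by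
    rw [← R.J_comp, R.J_homotopic (MV.delta_iCA (uM p u)), R.J_zero]
  have h5 : ∀ {M : LC} (g : PMap (MV.A (uM p u)) M.plus) (z : R.Hom (LC.R.prod M) L),
      R.comp (R.J (MV.delta (uM p u)))
        (R.comp (R.J (PMap.ltens LC.R (g.comp (MV.iCA (uM p u))))) z) = 0 := by
    intro M g z
    have e4 : PMap.ltens LC.R (g.comp (MV.iCA (uM p u))) =
        (PMap.ltens LC.R g).comp (PMap.ltens LC.R (MV.iCA (uM p u))) := by
      rw [← PMap.box_comp, PMap.comp_id]
    rw [e4, R.J_comp, R.assoc, ← R.assoc (R.J (MV.delta (uM p u))), h4, z_comp]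
  have h6 : t = R.comp (R.J (PMap.ltens LC.R (PMap.toPoint (MV.B u))))
      (R.comp (R.J (PMap.ltens LC.R (pB' p u hp))) t) := by
    have h7 := R.J_homotopic (hN.box_right (PMap.id LC.R))
    rw [PMap.box_id] at h7
    rw [← R.assoc, ← R.J_comp, ← PMap.box_comp, PMap.comp_id, ← h7, R.id_comp]
  have h8 : (PMap.toPoint (MV.B u)).comp ((MV.iCB u).comp eC) =
      (PMap.toPoint (MV.A (uM p u))).comp (MV.iCA (uM p u)) := by
    ext k; rfl
  have h9 : R.comp (R.J (MV.delta (uM p u)))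
      (R.comp (R.J (PMap.ltens LC.R ((MV.iCB u).comp eC))) t) = 0 := by
    rw [h6, ← R.assoc (R.J (PMap.ltens LC.R ((MV.iCB u).comp eC))), ← R.J_comp,
      ← PMap.box_comp, PMap.comp_id, h8]
    exact h5 _ _
  rw [hy, h2, c_sub, h9, sub_zero, ← hA_iCA]
  exact h5 _ _

include hp in
/-- The collapse has a section in `R`. -/
theorem cl_section
    (hN : (PMap.id (MV.B u)).Homotopic ((pB' p u hp).comp (PMap.toPoint (MV.B u))))
    (hB : (PMap.id (MV.B (uM p u))).Homotopic (PMap.zero _ _)) :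
    ∃ σ : R.Hom (mn p) K, R.comp σ (R.J (cl p)) = R.J (PMap.id (mn p)) ∧
      R.comp (R.J (cl p)) σ = R.J (PMap.id K) -
        R.comp (R.J (PMap.toPoint K)) (R.J (PMap.ofPoint p)) := by
  obtain ⟨σ, hσ⟩ := cl_exact p u hp R hN
    (R.J (PMap.id K) - R.comp (R.J (PMap.toPoint K)) (R.J (PMap.ofPoint p))) (by
      rw [c_sub, ← R.J_comp, ← R.J_comp, ← R.J_comp, sub_eq_zero]
      congr 1)
  refine ⟨σ, ?_, hσ.symm⟩
  rw [← sub_eq_zero]
  apply cl_inj p u hp R hN hB
  have e1 : (cl p).comp (PMap.ofPoint (K := K) p) = PMap.zero _ _ := by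
    ext k
    exact cl_pt p
  rw [c_sub, ← R.assoc, ← hσ, sub_c, R.id_comp, R.comp_id, R.assoc, ← R.J_comp, e1, R.J_zero,
    c_zero, sub_zero, sub_self]

end

end Pool.Agent.Helper9.Stab
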