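import Pool.Agent.Helper9.Stab.Yon

/-! Natural transformations of exact graded functors are additive. -/

open CategoryTheory Topology Filter Set Opposite

noncomputable section

namespace Pool.Agent.Helper1.Stab

/-! ## Retracts and doubles of test spaces -/

theorem IsTest.retract9 {K L : LC} (hL : IsTest L) (i : K ⟶ L) (r : L ⟶ K) (h : i ≫ r = 𝟙 K) :
    IsTest K := by
  obtain ⟨a, N, Q, hQ, hc, i', r', h'⟩ := hL
  refine ⟨a, N, Q, hQ, hc, i ≫ i', r' ≫ r, ?_⟩
  rw [Category.assoc, ← Category.assoc i' r' r, h', Category.id_comp, h]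

theorem IsTest.homeo9 {K L : LC} (hL : IsTest L) (e : K ≃ₜ L) : IsTest K := by
  refine hL.retract9 (PMap.ofHomeo e).cls (PMap.ofHomeo e.symm).cls ?_
  change (PMap.comp (PMap.ofHomeo e.symm) (PMap.ofHomeo e)).cls = (PMap.id K).cls
  congr 1
  ext k
  change ((e.symm (e k) : K) : OnePoint K) = (k : OnePoint K)
  rw [e.symm_apply_apply]

theorem IsTest.isEmpty9 {K E : LC} (hK : IsTest K) (hE : IsEmpty E) : IsTest E := by
  refine hK.retract9 (PMap.zero E K.plus).cls (PMap.zero K E.plus).cls ?_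
  change (PMap.comp (PMap.zero K E.plus) (PMap.zero E K.plus)).cls = (PMap.id E).cls
  congr 1
  ext k
  exact (hE.false k).elim

/-- two copies of a subset of `ℝ^N` -/
def dbl9 {N : ℕ} (Q : Set (Fin N → ℝ)) : Set (Fin (N + 1) → ℝ) :=
  {x | (x 0 = 0 ∨ x 0 = 1) ∧ (fun i : Fin N => x i.succ) ∈ Q}

theorem dbl_closed9 {N : ℕ} {Q : Set (Fin N → ℝ)} (h : IsClosed Q) : IsClosed (dbl9 Q) := by
  refine IsClosed.inter ?_ (h.preimage (by fun_prop))
  exact (isClosed_eq (continuous_apply 0) continuous_const).union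
    (isClosed_eq (continuous_apply 0) continuous_const)

theorem mem_cell_cons9 {N : ℕ} (e : ℤ) (c : Fin N → ℤ × Bool) (x : Fin (N + 1) → ℝ) :
    x ∈ cell (Fin.cons (e, false) c : Fin (N + 1) → ℤ × Bool) ↔
      x 0 = e ∧ (fun i : Fin N => x i.succ) ∈ cell c := by
  unfold cell
  simp only [mem_ofPred_eq, Fin.forall_fin_succ, Fin.cons_zero, Fin.cons_succ]
  simp

theorem dbl_cubical9 {N : ℕ} {Q : Set (Fin N → ℝ)} (h : IsCubical Q) : IsCubical (dbl9 Q) := by
  classical
  obtain ⟨S, rfl⟩ := h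
  refine ⟨S.image (fun c => (Fin.cons ((0 : ℤ), false) c : Fin (N + 1) → ℤ × Bool)) ∪
    S.image (fun c => (Fin.cons ((1 : ℤ), false) c : Fin (N + 1) → ℤ × Bool)), ?_⟩
  ext x
  simp only [dbl9, mem_ofPred_eq, mem_iUnion, exists_prop, Finset.mem_union, Finset.mem_image]
  constructor
  · rintro ⟨h0, c, hc, hx⟩
    rcases h0 with h0 | h0
    · exact ⟨_, Or.inl ⟨c, hc, rfl⟩, (mem_cell_cons9 0 c x).2 ⟨by rw [h0]; simp, hx⟩⟩
    · exact ⟨_, Or.inr ⟨c, hc, rfl⟩, (mem_cell_cons9 1 c x).2 ⟨by rw [h0]; simp, hx⟩⟩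
  · rintro ⟨_, ⟨c, hc, rfl⟩ | ⟨c, hc, rfl⟩, hx⟩
    · have h := (mem_cell_cons9 0 c x).1 hx
      exact ⟨Or.inl (by rw [h.1]; simp), c, hc, h.2⟩
    · have h := (mem_cell_cons9 1 c x).1 hx
      exact ⟨Or.inr (by rw [h.1]; simp), c, hc, h.2⟩

/-- the double of `ℝ^a × Q` -/
def dblHomeo9 (a : ℕ) {N : ℕ} (Q : Set (Fin N → ℝ)) (h : IsClosed Q) :
    ((LC.rpow (Fin a)).prod ((LC.rpow (Fin N)).closed Q h)).sum
      ((LC.rpow (Fin a)).prod ((LC.rpow (Fin N)).closed Q h)) ≃ₜ
    (LC.rpow (Fin a)).prod ((LC.rpow (Fin (N + 1))).closed (dbl9 Q) (dbl_closed9 h)) where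
  toFun := Sum.elim
    (fun x => (x.1, ⟨(Fin.cons 0 x.2.1 : Fin (N + 1) → ℝ), Or.inl (by simp), by
      simp only [Fin.cons_succ]; exact x.2.2⟩))
    (fun x => (x.1, ⟨(Fin.cons 1 x.2.1 : Fin (N + 1) → ℝ), Or.inr (by simp), by
      simp only [Fin.cons_succ]; exact x.2.2⟩))
  invFun := fun x => if x.2.1 0 ≤ (1 / 2 : ℝ) then
      Sum.inl (x.1, ⟨fun i : Fin N => x.2.1 i.succ, x.2.2.2⟩)
    else Sum.inr (x.1, ⟨fun i : Fin N => x.2.1 i.succ, x.2.2.2⟩)
  left_inv := by
    rintro (⟨v, q⟩ | ⟨v, q⟩)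
    · simp only [Sum.elim_inl, Fin.cons_zero, Fin.cons_succ]
      rw [if_pos (by norm_num)]
      rfl
    · simp only [Sum.elim_inr, Fin.cons_zero, Fin.cons_succ]
      rw [if_neg (by norm_num)]
      rfl
  right_inv := by
    rintro ⟨v, ⟨q, hq0, hq⟩⟩
    rcases hq0 with h0 | h0
    · simp only
      rw [if_pos (by rw [h0]; norm_num)]
      simp only [Sum.elim_inl]
      refine Prod.ext rfl (Subtype.ext ?_)
      funext i
      refine Fin.cases ?_ (fun i => ?_) i
      · simp [h0]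
      · simp
    · simp only
      rw [if_neg (by rw [h0]; norm_num)]
      simp only [Sum.elim_inr]
      refine Prod.ext rfl (Subtype.ext ?_)
      funext i
      refine Fin.cases ?_ (fun i => ?_) i
      · simp [h0]
      · simp
  continuous_toFun := by
    refine Continuous.sumElim ?_ ?_
    · refine continuous_fst.prodMk (Continuous.subtype_mk ?_ _)
      refine continuous_pi fun i => ?_
      refine Fin.cases ?_ (fun i => ?_) i
      · simp only [Fin.cons_zero]
        exact continuous_const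
      · simp only [Fin.cons_succ]
        exact (continuous_apply i).comp (continuous_subtype_val.comp continuous_snd)
    · refine continuous_fst.prodMk (Continuous.subtype_mk ?_ _)
      refine continuous_pi fun i => ?_
      refine Fin.cases ?_ (fun i => ?_) i
      · simp only [Fin.cons_zero]
        exact continuous_const
      · simp only [Fin.cons_succ]
        exact (continuous_apply i).comp (continuous_subtype_val.comp continuous_snd)
  continuous_invFun := by
    have hc : Continuous fun x : (LC.rpow (Fin a)).prod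
        ((LC.rpow (Fin (N + 1))).closed (dbl9 Q) (dbl_closed9 h)) =>
        ((x.1, ⟨fun i : Fin N => x.2.1 i.succ, x.2.2.2⟩) :
          (LC.rpow (Fin a)).prod ((LC.rpow (Fin N)).closed Q h)) := by
      refine continuous_fst.prodMk (Continuous.subtype_mk ?_ _)
      refine continuous_pi fun i => ?_
      exact (continuous_apply i.succ).comp (continuous_subtype_val.comp continuous_snd)
    refine Continuous.if_le (continuous_inl.comp hc) (continuous_inr.comp hc)
      ((continuous_apply 0).comp (continuous_subtype_val.comp continuous_snd))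
      continuous_const ?_
    rintro ⟨v, ⟨q, hq0, hq⟩⟩ hx
    simp only at hx
    rcases hq0 with h0 | h0 <;> rw [h0] at hx <;> norm_num at hx

theorem IsTest.sum9 {K : LC} (hK : IsTest K) : IsTest (K.sum K) := by
  obtain ⟨a, N, Q, hQ, hc, i, r, hir⟩ := hK
  have h2 : IsTest (((LC.rpow (Fin a)).prod ((LC.rpow (Fin N)).closed Q hQ)).sum
      ((LC.rpow (Fin a)).prod ((LC.rpow (Fin N)).closed Q hQ))) :=
    IsTest.homeo9 ⟨a, N + 1, dbl9 Q, dbl_closed9 hQ, dbl_cubical9 hc, 𝟙 _, 𝟙 _,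
      Category.comp_id _⟩ (dblHomeo9 a Q hQ)
  revert i r
  refine HMap.ind fun i => ?_
  refine HMap.ind fun r => ?_
  intro hir
  have hir' : (PMap.comp r i).Homotopic (PMap.id K) := PMap.cls_eq.1 hir
  refine h2.retract9 (i.sumMap i).cls (r.sumMap r).cls ?_
  change (PMap.comp (r.sumMap r) (i.sumMap i)).cls = (PMap.id (K.sum K)).cls
  rw [PMap.cls_eq]
  have e1 : PMap.comp (r.sumMap r) (i.sumMap i) =
      ((PMap.inl K K).comp (PMap.comp r i)).copair ((PMap.inr K K).comp (PMap.comp r i)) := by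
    ext x
    rcases x with k | k
    · change (r.sumMap r).plus ((PMap.inl _ _).plus (i k)) =
        (PMap.inl K K).plus (r.plus (i k))
      rcases i k with _ | l <;> rfl
    · change (r.sumMap r).plus ((PMap.inr _ _).plus (i k)) =
        (PMap.inr K K).plus (r.plus (i k))
      rcases i k with _ | l <;> rfl
  have e2 : PMap.id (K.sum K) =
      ((PMap.inl K K).comp (PMap.id K)).copair ((PMap.inr K K).comp (PMap.id K)) := by
    ext x
    rcases x with k | k <;> rfl
  rw [e1, e2]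
  exact (PMap.Homotopic.comp_right _ hir').copair (PMap.Homotopic.comp_right _ hir')

/-! ## Vanishing on the empty space -/

/-- the values on empty spaces vanish -/
def GF.Red (H : GF) : Prop :=
  ∀ (b : ℕ) (K : LC) (hK : IsTest K), IsEmpty K → ∀ x : (H.h b).obj (op ⟨K, hK⟩), x = 0

/-- the empty test space -/
def Test.empty9 (K : Test) : Test := ⟨LC.empty, K.property.isEmpty9 ⟨fun x => nomatch x⟩⟩

theorem GF.Red.pbT_zeroMap {H : GF} (h0 : H.Red) (b : ℕ) {K L : Test} (x : (H.h b).obj (op L)) :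
    pbT (H.h b) (K := K) (L := L) (PMap.zero K.obj L.obj.plus) x = 0 := by
  have h1 : PMap.zero K.obj L.obj.plus =
      (PMap.zero LC.empty L.obj.plus).comp (PMap.zero K.obj LC.empty.plus) := by
    ext k; rfl
  have h2 := pbT_comp (H.h b) (K := K) (L := Test.empty9 K) (M := L)
    (PMap.zero LC.empty L.obj.plus) (PMap.zero K.obj LC.empty.plus) x
  rw [h1]
  refine h2.trans ?_
  have h3 : pbT (H.h b) (K := Test.empty9 K) (L := L) (PMap.zero LC.empty L.obj.plus) x = 0 :=
    h0 b LC.empty _ ⟨fun x => nomatch x⟩ _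
  rw [h3, pbT_zero]

/-! ## Injectivity on doubles -/

/-- the double of a test space -/
def Test.dbl9 (K : Test) : Test := ⟨K.obj.sum K.obj, K.property.sum9⟩

/-- the function that separates the two copies -/
def sepU9 (K : LC) : C(K.sum K, ℝ) :=
  ⟨Sum.elim (fun _ => -1) (fun _ => 2), continuous_const.sumElim continuous_const⟩

/-- the first copy -/
def sepA9 (K : LC) : MV.A (sepU9 K) ≃ₜ K where
  toFun x := Sum.elim (fun k => k) (fun k => k) x.1
  invFun k := ⟨Sum.inl k, show (-1 : ℝ) ≤ 1 by norm_num⟩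
  left_inv := by
    rintro ⟨k | k, hk⟩
    · rfl
    · exact absurd (show (2 : ℝ) ≤ 1 from hk) (by norm_num)
  right_inv _ := rfl
  continuous_toFun := (continuous_id.sumElim continuous_id).comp continuous_subtype_val
  continuous_invFun := continuous_inl.subtype_mk _

/-- the second copy -/
def sepB9 (K : LC) : MV.B (sepU9 K) ≃ₜ K where
  toFun x := Sum.elim (fun k => k) (fun k => k) x.1
  invFun k := ⟨Sum.inr k, show (0 : ℝ) ≤ 2 by norm_num⟩
  left_inv := by
    rintro ⟨k | k, hk⟩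
    · exact absurd (show (0 : ℝ) ≤ -1 from hk) (by norm_num)
    · rfl
  right_inv _ := rfl
  continuous_toFun := (continuous_id.sumElim continuous_id).comp continuous_subtype_val
  continuous_invFun := continuous_inr.subtype_mk _

theorem sepC9 (K : LC) : IsEmpty (MV.C (sepU9 K)) := by
  refine ⟨?_⟩
  rintro ⟨k | k, hk⟩
  · exact absurd (show (0 : ℝ) ≤ -1 from hk.1) (by norm_num)
  · exact absurd (show (2 : ℝ) ≤ 1 from hk.2) (by norm_num)

/-- An element on the double of a test space is determined by its restrictions. -/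
theorem GF.Exact.dbl_zero {H : GF} (hH : H.Exact) (h0 : H.Red) (b : ℕ) (K : Test)
    (x : (H.h b).obj (op (Test.dbl9 K)))
    (h1 : pbT (H.h b) (K := K) (L := Test.dbl9 K) (PMap.inl K.obj K.obj) x = 0)
    (h2 : pbT (H.h b) (K := K) (L := Test.dbl9 K) (PMap.inr K.obj K.obj) x = 0) : x = 0 := by
  have hA : IsTest (MV.A (sepU9 K.obj)) := K.property.homeo9 (sepA9 K.obj)
  have hB : IsTest (MV.B (sepU9 K.obj)) := K.property.homeo9 (sepB9 K.obj)
  have hC : IsTest (MV.C (sepU9 K.obj)) := K.property.isEmpty9 (sepC9 K.obj)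
  obtain ⟨y, hy⟩ := hH.mv1 b (K.obj.sum K.obj) (sepU9 K.obj) K.property.sum9 hA hB hC x
    (by
      have e : MV.iA (sepU9 K.obj) = (PMap.inl K.obj K.obj).comp (PMap.ofHomeo (sepA9 K.obj)) := by
        ext s
        obtain ⟨k | k, hk⟩ := s
        · rfl
        · exact absurd (show (2 : ℝ) ≤ 1 from hk) (by norm_num)
      have h3 := pbT_comp (H.h b) (K := ⟨_, hA⟩) (L := K) (M := Test.dbl9 K)
        (PMap.inl K.obj K.obj) (PMap.ofHomeo (sepA9 K.obj)) x
      have h4 : pbT (H.h b) (K := ⟨_, hA⟩) (L := K) (PMap.ofHomeo (sepA9 K.obj))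
          (pbT (H.h b) (K := K) (L := Test.dbl9 K) (PMap.inl K.obj K.obj) x) = 0 := by
        rw [h1]
        exact pbT_zero (H.h b) (K := ⟨_, hA⟩) (L := K) (PMap.ofHomeo (sepA9 K.obj))
      exact (congrArg (fun g : PMap _ _ => pbT (H.h b) (K := ⟨_, hA⟩) (L := Test.dbl9 K) g x) e).trans
        (h3.trans h4))
    (by
      have e : MV.iB (sepU9 K.obj) = (PMap.inr K.obj K.obj).comp (PMap.ofHomeo (sepB9 K.obj)) := by
        ext s
        obtain ⟨k | k, hk⟩ := s
        · exact absurd (show (0 : ℝ) ≤ -1 from hk) (by norm_num)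
        · rfl
      have h3 := pbT_comp (H.h b) (K := ⟨_, hB⟩) (L := K) (M := Test.dbl9 K)
        (PMap.inr K.obj K.obj) (PMap.ofHomeo (sepB9 K.obj)) x
      have h4 : pbT (H.h b) (K := ⟨_, hB⟩) (L := K) (PMap.ofHomeo (sepB9 K.obj))
          (pbT (H.h b) (K := K) (L := Test.dbl9 K) (PMap.inr K.obj K.obj) x) = 0 := by
        rw [h2]
        exact pbT_zero (H.h b) (K := ⟨_, hB⟩) (L := K) (PMap.ofHomeo (sepB9 K.obj))
      exact (congrArg (fun g : PMap _ _ => pbT (H.h b) (K := ⟨_, hB⟩) (L := Test.dbl9 K) g x) e).trans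
        (h3.trans h4))
  have hy0 : y = 0 := h0 b _ hC.prodR ⟨fun z => (sepC9 K.obj).false z.2⟩ y
  rw [hy, hy0]
  exact pbT_zero (H.h b) (K := Test.dbl9 K) (L := ⟨_, hC.prodR⟩) (MV.delta (sepU9 K.obj))

/-! ## Additivity -/

section additivity

variable {G H : GF} (hG0 : G.Red) (hH : H.Exact) (hH0 : H.Red)
  (θ : ∀ (b : ℕ) (K : Test), ((G.h b).obj (op K) : Type) → ((H.h b).obj (op K) : Type))
  (nat : ∀ (b : ℕ) (K L : Test) (f : PMap K.obj L.obj.plus) (x : (G.h b).obj (op L)),
    θ b K (pbT (G.h b) f x) = pbT (H.h b) f (θ b L x))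
  (sg : ∀ (b : ℕ) (K : Test) (x : (G.h b).obj (op K)),
    θ (b + 1) (Test.cx.obj K) ((G.σ b).hom.app (op K) x) = (H.σ b).hom.app (op K) (θ b K x))

include hG0 hH hH0 nat in
theorem add_of_nat_cx (b : ℕ) (K : Test) : ∀ (x y : (G.h b).obj (op (Test.cx.obj K))),
    θ b (Test.cx.obj K) (x + y) = θ b (Test.cx.obj K) x + θ b (Test.cx.obj K) y := by
  let L : Test := Test.cx.obj K
  change ∀ (x y : (G.h b).obj (op L)), θ b L (x + y) = θ b L x + θ b L y
  intro x y
  let c1 : PMap (Test.dbl9 L).obj L.obj.plus :=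
    (PMap.id L.obj).copair (PMap.zero L.obj L.obj.plus)
  let c2 : PMap (Test.dbl9 L).obj L.obj.plus :=
    (PMap.zero L.obj L.obj.plus).copair (PMap.id L.obj)
  let p : PMap L.obj (Test.dbl9 L).obj.plus := pinchK K.obj
  let i1 : PMap L.obj (Test.dbl9 L).obj.plus := PMap.inl L.obj L.obj
  let i2 : PMap L.obj (Test.dbl9 L).obj.plus := PMap.inr L.obj L.obj
  have p1 : ∀ (F : Testᵒᵖ ⥤ AddCommGrpCat.{0}) (x : F.obj (op L)),
      pbT F p (pbT F c1 x) = x := by
    intro F x
    rw [← pbT_comp, pbT_homotopic F (pinchK_unit_left K.obj : (PMap.comp c1 p).Homotopic _)]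
    exact pbT_id F L x
  have p2 : ∀ (F : Testᵒᵖ ⥤ AddCommGrpCat.{0}) (x : F.obj (op L)),
      pbT F p (pbT F c2 x) = x := by
    intro F x
    rw [← pbT_comp, pbT_homotopic F (pinchK_unit_right K.obj : (PMap.comp c2 p).Homotopic _)]
    exact pbT_id F L x
  have a1 : ∀ (F : Testᵒᵖ ⥤ AddCommGrpCat.{0}) (x : F.obj (op L)),
      pbT F i1 (pbT F c1 x) = x := by
    intro F x
    rw [← pbT_comp]
    exact pbT_id F L x
  have a2 : ∀ (F : Testᵒᵖ ⥤ AddCommGrpCat.{0}) (x : F.obj (op L)),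
      pbT F i2 (pbT F c2 x) = x := by
    intro F x
    rw [← pbT_comp]
    exact pbT_id F L x
  have b1 : ∀ (F : Testᵒᵖ ⥤ AddCommGrpCat.{0}) (x : F.obj (op L)),
      pbT F i1 (pbT F c2 x) = pbT F (K := L) (L := L) (PMap.zero L.obj L.obj.plus) x := by
    intro F x
    rw [← pbT_comp]
    rfl
  have b2 : ∀ (F : Testᵒᵖ ⥤ AddCommGrpCat.{0}) (x : F.obj (op L)),
      pbT F i2 (pbT F c1 x) = pbT F (K := L) (L := L) (PMap.zero L.obj L.obj.plus) x := by
    intro F x
    rw [← pbT_comp]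
    rfl
  let w : (G.h b).obj (op (Test.dbl9 L)) := pbT (G.h b) c1 x + pbT (G.h b) c2 y
  have hw : pbT (G.h b) p w = x + y := by
    change pbT (G.h b) p (pbT (G.h b) c1 x + pbT (G.h b) c2 y) = x + y
    rw [pbT_add, p1, p2]
  have hw1 : pbT (G.h b) i1 w = x := by
    change pbT (G.h b) i1 (pbT (G.h b) c1 x + pbT (G.h b) c2 y) = x
    rw [pbT_add, a1, b1, hG0.pbT_zeroMap, add_zero]
  have hw2 : pbT (G.h b) i2 w = y := by
    change pbT (G.h b) i2 (pbT (G.h b) c1 x + pbT (G.h b) c2 y) = y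
    rw [pbT_add, b2, a2, hG0.pbT_zeroMap, zero_add]
  have key : θ b (Test.dbl9 L) w = pbT (H.h b) c1 (θ b L x) + pbT (H.h b) c2 (θ b L y) := by
    have h := hH.dbl_zero hH0 b L
      (θ b (Test.dbl9 L) w - (pbT (H.h b) c1 (θ b L x) + pbT (H.h b) c2 (θ b L y)))
      (by
        change pbT (H.h b) i1 _ = 0
        rw [pbT_sub, pbT_add, a1, b1, hH0.pbT_zeroMap, add_zero, ← nat, hw1, sub_self])
      (by
        change pbT (H.h b) i2 _ = 0
        rw [pbT_sub, pbT_add, b2, a2, hH0.pbT_zeroMap, zero_add, ← nat, hw2, sub_self])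
    exact sub_eq_zero.1 h
  rw [← hw, nat, key, pbT_add, p1, p2]

include hG0 hH hH0 nat sg in
/-- Natural transformations of exact graded functors that commute with the suspension isomorphisms
are additive. -/
theorem add_of_nat (b : ℕ) (K : Test) (x y : (G.h b).obj (op K)) :
    θ b K (x + y) = θ b K x + θ b K y := by
  apply sig_inj
  have h1 : (G.σ b).hom.app (op K) (x + y) =
      (G.σ b).hom.app (op K) x + (G.σ b).hom.app (op K) y := map_add _ x y
  have h2 : (H.σ b).hom.app (op K) (θ b K x + θ b K y) =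
      (H.σ b).hom.app (op K) (θ b K x) + (H.σ b).hom.app (op K) (θ b K y) := map_add _ _ _
  rw [← sg, h1, h2, ← sg, ← sg]
  exact add_of_nat_cx hG0 hH hH0 θ nat (b + 1) K _ _

end additivity

end Pool.Agent.Helper1.Stab
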