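import Pool.Agent.Helper9.Stab.SphB
import Pool.Agent.Helper1.Stab.Comp

/-! The map of the difference of two classes. -/

open Topology Filter Set

noncomputable section

namespace Pool.Agent.Helper9.Stab

open Pool.Agent.Helper1.Stab

/-- interpolation between two homeomorphisms `(0,1) → ℝ` -/
def kap (l h : ℝ) : ℝ := (1 - l) * unsquash h + l * MV.toReal h

theorem kap_zero (h : ℝ) : kap 0 h = unsquash h := by unfold kap; ring

theorem kap_one (h : ℝ) : kap 1 h = MV.toReal h := by unfold kap; ring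

theorem kap_bound {l h M : ℝ} (hl0 : 0 ≤ l) (hl1 : l ≤ 1) (h0 : 0 < h) (h1 : h < 1)
    (hM : |kap l h| ≤ M) : 1 / (2 * (M + 1)) ≤ h ∧ h ≤ 1 - 1 / (2 * (M + 1)) := by
  have hM0 : 0 ≤ M := (abs_nonneg _).trans hM
  obtain ⟨ha, hb⟩ := abs_le.1 hM
  have hM1 : 0 < 2 * (M + 1) := by linarith
  have he : 1 / (2 * (M + 1)) ≤ 1 / 2 := by
    apply one_div_le_one_div_of_le (by norm_num)
    linarith
  rcases le_or_gt h (1 / 2) with hh | hh
  · have e1 : unsquash h = 1 - 1 / (2 * h) := by
      unfold unsquash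
      rw [if_pos hh]
      field_simp
    have e2 : MV.toReal h ≤ 1 - 1 / (2 * h) := by
      unfold MV.toReal
      have h3 : 1 / (1 - h) ≤ 2 := by
        rw [div_le_iff₀ (by linarith)]; linarith
      have h4 : 1 / h = 2 * (1 / (2 * h)) := by field_simp
      have h5 : 1 ≤ 1 / (2 * h) := by
        rw [le_div_iff₀ (by linarith)]; linarith
      rw [h4]
      linarith
    have e3 : kap l h ≤ 1 - 1 / (2 * h) := by
      unfold kap
      rw [e1]
      nlinarith
    have e4 : 1 / (2 * h) ≤ M + 1 := by linarith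
    have e5 : 1 / (2 * (M + 1)) ≤ h := by
      rw [div_le_iff₀ hM1]
      rw [div_le_iff₀ (by linarith)] at e4
      linarith
    exact ⟨e5, by linarith⟩
  · have e1 : unsquash h = 1 / (2 * (1 - h)) - 1 := by
      unfold unsquash
      rw [if_neg (not_le.2 hh)]
      have h3 : (1 : ℝ) - h ≠ 0 := by linarith
      have h4 : (2 : ℝ) - 2 * h ≠ 0 := by linarith
      field_simp
      ring
    have e2 : 1 / (2 * (1 - h)) - 1 ≤ MV.toReal h := by
      unfold MV.toReal
      have h3 : 1 / h ≤ 2 := by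
        rw [div_le_iff₀ (by linarith)]; linarith
      have h4 : 1 / (1 - h) = 2 * (1 / (2 * (1 - h))) := by
        have h3 : (1 : ℝ) - h ≠ 0 := by linarith
        field_simp
      have h5 : 1 ≤ 1 / (2 * (1 - h)) := by
        rw [le_div_iff₀ (by linarith)]; linarith
      rw [h4]
      linarith
    have e3 : 1 / (2 * (1 - h)) - 1 ≤ kap l h := by
      unfold kap
      rw [e1]
      nlinarith
    have e4 : 1 / (2 * (1 - h)) ≤ M + 1 := by linarith
    have e5 : 1 / (2 * (M + 1)) ≤ 1 - h := by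
      rw [div_le_iff₀ hM1]
      rw [div_le_iff₀ (by linarith)] at e4
      linarith
    exact ⟨by linarith, by linarith⟩

theorem kap_cont {X : Type} [TopologicalSpace X] {l h : X → ℝ} (hl : Continuous l)
    (hh : Continuous h) (h0 : ∀ x, 0 < h x) (h1 : ∀ x, h x < 1) :
    Continuous fun x => kap (l x) (h x) := by
  have e1 : Continuous fun x => unsquash (h x) := by
    unfold unsquash
    refine Continuous.if_le ?_ ?_ hh continuous_const ?_
    · refine Continuous.div (by fun_prop) (by fun_prop) ?_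
      intro x
      have := h0 x
      positivity
    · refine Continuous.div (by fun_prop) (by fun_prop) ?_
      intro x
      have := h1 x
      have h3 : (0 : ℝ) < 2 - 2 * h x := by linarith
      exact h3.ne'
    · intro x hx
      rw [hx]
      norm_num
  have e2 : Continuous fun x => MV.toReal (h x) := by
    unfold MV.toReal
    refine Continuous.sub ?_ ?_
    · refine Continuous.div continuous_const (by fun_prop) ?_
      intro x
      have := h1 x
      have h3 : (0 : ℝ) < 1 - h x := by linarith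
      exact h3.ne'
    · exact Continuous.div continuous_const hh fun x => (h0 x).ne'
  unfold kap
  fun_prop

open Classical in
/-- the value of the difference map: the height is `φ / (1 + |re z|)` -/
def Ev {G : Type} (b : G) (z : ℂ) (φ l : ℝ) (g : G) : OnePoint (ℂ × G) :=
  if 0 < φ / (1 + |z.re|) ∧ φ / (1 + |z.re|) < 1 then
    ((((⟨kap l (φ / (1 + |z.re|)), z.im⟩ : ℂ), if z.re ≤ 0 then g else b) : ℂ × G) :
      OnePoint (ℂ × G))
  else OnePoint.infty

section

variable {Y G : LC} [CompactSpace Y] (b : G) (φ l : C(Y, ℝ)) (g : C(Y, G))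

theorem mk_cont {X : Type} [TopologicalSpace X] {a c : X → ℝ} (ha : Continuous a)
    (hc : Continuous c) : Continuous fun x => (⟨a x, c x⟩ : ℂ) :=
  Complex.equivRealProdCLM.symm.continuous.comp (ha.prodMk hc)

theorem EP_aux (hφ1 : ∀ y, φ y ≤ 1) (hl0 : ∀ y, 0 ≤ l y) (hl1 : ∀ y, l y ≤ 1)
    (hg : ∀ y, φ y ≠ 1 → g y = b) :
    Continuous (fun x : LC.C.prod Y => Ev b x.1 (φ x.2) (l x.2) (g x.2)) ∧
    Tendsto (fun x : LC.C.prod Y => Ev b x.1 (φ x.2) (l x.2) (g x.2)) (cocompact (LC.C.prod Y))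
      (𝓝 (OnePoint.infty : OnePoint (ℂ × G))) := by
  classical
  let hgt : ℂ × Y → ℝ := fun x => φ x.2 / (1 + |x.1.re|)
  have hhc : Continuous hgt := by
    refine Continuous.div (φ.continuous.comp continuous_snd)
      (continuous_const.add (Complex.continuous_re.comp continuous_fst).abs) ?_
    intro x
    have := abs_nonneg x.1.re
    positivity
  let O : Set (LC.C.prod Y) := {x | 0 < hgt x ∧ hgt x < 1}
  have hO : IsOpen O := (isOpen_lt continuous_const hhc).inter (isOpen_lt hhc continuous_const)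
  let G' : O → LC.C.prod G := fun x =>
    ((⟨kap (l x.1.2) (hgt x.1), x.1.1.im⟩ : ℂ), if x.1.1.re ≤ 0 then g x.1.2 else b)
  have hG' : Continuous G' := by
    refine Continuous.prodMk (mk_cont ?_ ?_) ?_
    · exact kap_cont (l.continuous.comp (continuous_snd.comp continuous_subtype_val))
        (hhc.comp continuous_subtype_val) (fun x => x.2.1) (fun x => x.2.2)
    · exact Complex.continuous_im.comp (continuous_fst.comp continuous_subtype_val)
    · refine Continuous.if_le (g.continuous.comp (continuous_snd.comp continuous_subtype_val))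
        continuous_const (Complex.continuous_re.comp (continuous_fst.comp continuous_subtype_val))
        continuous_const ?_
      intro x hx
      apply hg
      intro h1
      have h2 : hgt x.1 < 1 := x.2.2
      simp only [hgt] at h2
      have h3 : (x.1.1 : ℂ).re = 0 := hx
      rw [h1, h3] at h2
      norm_num at h2
  refine MV.partial_open (X := LC.C.prod Y) (L := LC.C.prod G) O hO G' hG' _ ?_ ?_ ?_
  · intro x
    exact if_pos x.2
  · intro x hx
    exact if_neg hx
  · intro D hD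
    have hD1 : IsCompact ((fun d : ℂ × G => d.1) '' D) := hD.image continuous_fst
    obtain ⟨M, hM⟩ := hD1.isBounded.exists_norm_le
    have hMM : ∀ d ∈ D, |d.1.re| ≤ M ∧ |d.1.im| ≤ M := fun d hd =>
      ⟨(Complex.abs_re_le_norm _).trans (hM _ ⟨d, hd, rfl⟩),
        (Complex.abs_im_le_norm _).trans (hM _ ⟨d, hd, rfl⟩)⟩
    set M' := max M 0 with hM'
    have hM0 : 0 ≤ M' := le_max_right _ _
    set ε := 1 / (2 * (M' + 1)) with hε
    have hε0 : 0 < ε := by positivity
    have hbox : IsCompact {z : ℂ | |z.re| ≤ 1 / ε ∧ |z.im| ≤ M'} := by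
      apply Metric.isCompact_of_isClosed_isBounded
      · exact (isClosed_le Complex.continuous_re.abs continuous_const).inter
          (isClosed_le Complex.continuous_im.abs continuous_const)
      · rw [isBounded_iff_forall_norm_le]
        refine ⟨1 / ε + M', fun z hz => ?_⟩
        exact (Complex.norm_le_abs_re_add_abs_im z).trans (add_le_add hz.1 hz.2)
    refine ⟨({z : ℂ | |z.re| ≤ 1 / ε ∧ |z.im| ≤ M'} ×ˢ univ) ∩
      {x | ε ≤ hgt x ∧ hgt x ≤ 1 - ε}, ?_, ?_, ?_⟩
    · exact (hbox.prod isCompact_univ).inter_right ((isClosed_le continuous_const hhc).inter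
        (isClosed_le hhc continuous_const))
    · rintro x ⟨-, h1, h2⟩
      exact ⟨lt_of_lt_of_le hε0 h1, lt_of_le_of_lt h2 (by linarith)⟩
    · intro x hx
      obtain ⟨h1, h2⟩ := hMM _ hx
      have h3 := kap_bound (hl0 x.1.2) (hl1 x.1.2) x.2.1 x.2.2 (h1.trans (le_max_left M 0))
      refine ⟨⟨⟨?_, h2.trans (le_max_left _ _)⟩, trivial⟩, h3⟩
      have h4 : ε ≤ φ x.1.2 / (1 + |x.1.1.re|) := h3.1
      have h5 : 0 < 1 + |(x.1.1 : ℂ).re| := by positivity
      rw [le_div_iff₀ h5] at h4
      have h6 := hφ1 x.1.2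
      rw [le_div_iff₀ hε0]
      nlinarith [abs_nonneg (x.1.1 : ℂ).re]

/-- the difference map -/
def EP (hφ1 : ∀ y, φ y ≤ 1) (hl0 : ∀ y, 0 ≤ l y) (hl1 : ∀ y, l y ≤ 1)
    (hg : ∀ y, φ y ≠ 1 → g y = b) : PMap (LC.C.prod Y) (LC.C.prod G).plus :=
  ⟨fun x => Ev b x.1 (φ x.2) (l x.2) (g x.2), (EP_aux b φ l g hφ1 hl0 hl1 hg).1,
    (EP_aux b φ l g hφ1 hl0 hl1 hg).2⟩

end

/-- `I × (ℂ × Y) = ℂ × (I × Y)` -/
def swI (Y : LC) : LC.I.prod (LC.C.prod Y) ≃ₜ LC.C.prod (LC.I.prod Y) where
  toFun x := (x.2.1, (x.1, x.2.2))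
  invFun x := (x.2.1, (x.1, x.2.2))
  left_inv _ := rfl
  right_inv _ := rfl
  continuous_toFun := by fun_prop
  continuous_invFun := by fun_prop

/-- homotopies of difference maps -/
theorem EP_homotopic {Y G : LC} [CompactSpace Y] (b : G) (φ l : C(LC.I.prod Y, ℝ))
    (g : C(LC.I.prod Y, G)) (hφ1 : ∀ y, φ y ≤ 1) (hl0 : ∀ y, 0 ≤ l y) (hl1 : ∀ y, l y ≤ 1)
    (hg : ∀ y, φ y ≠ 1 → g y = b) (f f' : PMap (LC.C.prod Y) (LC.C.prod G).plus)
    (hf : ∀ (z : ℂ) (y : Y), f (z, y) = Ev b z (φ (0, y)) (l (0, y)) (g (0, y)))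
    (hf' : ∀ (z : ℂ) (y : Y), f' (z, y) = Ev b z (φ (1, y)) (l (1, y)) (g (1, y))) :
    f.Homotopic f' := by
  haveI : CompactSpace (LC.I.prod Y) := inferInstanceAs (CompactSpace (unitInterval × Y))
  refine ⟨(EP b φ l g hφ1 hl0 hl1 hg).comp (PMap.ofHomeo (swI Y)), ?_, ?_⟩
  · rintro ⟨z, y⟩
    exact (hf z y).symm
  · rintro ⟨z, y⟩
    exact (hf' z y).symm

end Pool.Agent.Helper9.Stab
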