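import Pool.Agent.Helper9.Stab.Split

/-! The splitting for complex affine spaces. -/

open Topology Filter Set

noncomputable section

namespace Pool.Agent.Helper9.Stab

open Pool.Agent.Helper1.Stab

/-- the radial function `2 (‖z‖ - 1) / (‖z‖ + 1)` -/
def uV (e : ℕ) : C(LC.cpow (Fin e), ℝ) :=
  ⟨fun z : Fin e → ℂ => 2 * (‖z‖ - 1) / (‖z‖ + 1), by
    refine Continuous.div (by fun_prop) (by fun_prop) ?_
    intro z
    have := norm_nonneg z
    positivity⟩

theorem uV_apply (e : ℕ) (z : Fin e → ℂ) : uV e z = 2 * (‖z‖ - 1) / (‖z‖ + 1) := rfl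

theorem uV_nonneg {e : ℕ} {z : Fin e → ℂ} : 0 ≤ uV e z ↔ 1 ≤ ‖z‖ := by
  rw [uV_apply]
  have h := norm_nonneg z
  have h1 : 0 < ‖z‖ + 1 := by linarith
  rw [le_div_iff₀ h1]
  constructor <;> intro h2 <;> linarith

theorem uV_tendsto (e : ℕ) : Tendsto (uV e) (cocompact (LC.cpow (Fin e))) (𝓝 2) := by
  have h1 : Tendsto (fun z : Fin e → ℂ => ‖z‖) (cocompact (Fin e → ℂ)) atTop :=
    tendsto_norm_cocompact_atTop
  have h2 : Tendsto (fun z : Fin e → ℂ => 2 - 4 / (‖z‖ + 1)) (cocompact (Fin e → ℂ))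
      (𝓝 (2 - 0)) :=
    tendsto_const_nhds.sub (tendsto_const_nhds.div_atTop (tendsto_atTop_add_const_right _ 1 h1))
  rw [sub_zero] at h2
  refine h2.congr fun z => ?_
  have h3 := norm_nonneg z
  have h4 : ‖z‖ + 1 ≠ 0 := by positivity
  rw [uV_apply]
  field_simp
  ring

/-- the part `‖z‖ ≥ 1` is contractible to infinity -/
theorem B_null (e : ℕ) : (PMap.id (MV.B (uV e))).Homotopic (PMap.zero _ _) := by
  classical
  set B : LC := MV.B (uV e) with hBdef
  let vv : B → (Fin e → ℂ) := fun b => b.1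
  have hvv : Continuous vv := continuous_subtype_val
  have hv1 : ∀ b : B, 1 ≤ ‖vv b‖ := fun b => uV_nonneg.1 b.2
  let O : Set (LC.I.prod B) := {x | (x.1 : ℝ) < 1}
  have hO : IsOpen O := isOpen_lt (continuous_subtype_val.comp continuous_fst) continuous_const
  have hg0 : ∀ x : O, 0 ≤ uV e ((1 - (x.1.1 : ℝ))⁻¹ • vv x.1.2) := by
    intro x
    rw [uV_nonneg, norm_smul, norm_inv]
    have h1 : (x.1.1 : ℝ) < 1 := x.2
    have h0 : 0 ≤ (x.1.1 : ℝ) := x.1.1.2.1
    rw [Real.norm_eq_abs, abs_of_pos (by linarith)]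
    have h2 : 1 ≤ (1 - (x.1.1 : ℝ))⁻¹ := (one_le_inv₀ (by linarith)).2 (by linarith)
    nlinarith [hv1 x.1.2]
  let g : O → B := fun x => ⟨(1 - (x.1.1 : ℝ))⁻¹ • vv x.1.2, hg0 x⟩
  have hg : Continuous g := by
    refine Continuous.subtype_mk ?_ _
    have hc2 : Continuous fun x : O => vv x.1.2 :=
      hvv.comp ((continuous_snd (X := unitInterval) (Y := B)).comp continuous_subtype_val)
    have hc1 : Continuous fun x : O => (1 - (x.1.1 : ℝ))⁻¹ := by
      refine Continuous.inv₀ (continuous_const.sub (continuous_subtype_val.comp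
        ((continuous_fst (X := unitInterval) (Y := B)).comp continuous_subtype_val))) ?_
      intro x
      have h1 : (x.1.1 : ℝ) < 1 := x.2
      simp only [Function.comp_apply]
      linarith
    exact hc1.smul hc2
  let f : LC.I.prod B → OnePoint B := fun x => if h : x ∈ O then (g ⟨x, h⟩ : OnePoint B)
    else OnePoint.infty
  have hf : ∀ x : O, f x = (g x : OnePoint B) := fun x => dif_pos x.2
  have hf' : ∀ x, x ∉ O → f x = OnePoint.infty := fun x hx => dif_neg hx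
  have hP := MV.partial_open (X := LC.I.prod B) (L := B) O hO g hg f hf hf' (by
    intro D hD
    obtain ⟨M0, hM0⟩ := (hD.image hvv).isBounded.exists_norm_le
    set M := max M0 1 with hM
    have hMM : ∀ b ∈ D, ‖vv b‖ ≤ M := fun b hb => (hM0 _ ⟨b, hb, rfl⟩).trans (le_max_left _ _)
    have hM1 : 1 ≤ M := le_max_right _ _
    have hMp : 0 < M := by linarith
    have hcb : IsCompact {b : B | ‖vv b‖ ≤ M} := by
      have h1 := (MV.clB (uV e)).isClosedEmbedding_subtypeVal.isCompact_preimage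
        (isCompact_closedBall (0 : Fin e → ℂ) M)
      have h2 : {b : B | ‖vv b‖ ≤ M} = Subtype.val ⁻¹' (Metric.closedBall (0 : Fin e → ℂ) M) := by
        ext b
        exact (mem_closedBall_zero_iff (a := vv b) (r := M)).symm
      rw [h2]
      exact h1
    refine ⟨(univ ×ˢ {b : B | ‖vv b‖ ≤ M}) ∩ {x | M⁻¹ ≤ 1 - (x.1 : ℝ)}, ?_, ?_, ?_⟩
    · exact (isCompact_univ.prod hcb).inter_right (isClosed_le continuous_const
        (continuous_const.sub (continuous_subtype_val.comp continuous_fst)))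
    · rintro x ⟨-, hx⟩
      have h1 : M⁻¹ ≤ 1 - (x.1 : ℝ) := hx
      have h2 : 0 < M⁻¹ := inv_pos.2 hMp
      change (x.1 : ℝ) < 1
      linarith
    · intro x hx
      have h1 : (x.1.1 : ℝ) < 1 := x.2
      have h0 : 0 ≤ (x.1.1 : ℝ) := x.1.1.2.1
      have h2 : ‖(1 - (x.1.1 : ℝ))⁻¹ • vv x.1.2‖ ≤ M := hMM _ hx
      rw [norm_smul, norm_inv, Real.norm_eq_abs, abs_of_pos (by linarith : 0 < 1 - (x.1.1 : ℝ)),
        inv_mul_le_iff₀ (by linarith)] at h2
      have h3 := hv1 x.1.2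
      refine ⟨⟨trivial, ?_⟩, ?_⟩
      · change ‖vv x.1.2‖ ≤ M
        nlinarith
      · change M⁻¹ ≤ 1 - (x.1.1 : ℝ)
        rw [inv_le_iff_one_le_mul₀ hMp]
        linarith)
  refine ⟨⟨f, hP.1, hP.2⟩, fun k => ?_, fun k => ?_⟩
  · have h0 : ((0 : LC.I), k) ∈ O := show ((0 : unitInterval) : ℝ) < 1 by norm_num
    change f ((0 : LC.I), k) = (k : OnePoint B)
    rw [hf ⟨_, h0⟩]
    congr 1
    refine Subtype.ext ?_
    change (1 - ((0 : unitInterval) : ℝ))⁻¹ • vv k = vv k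
    simp
  · refine hf' _ ?_
    intro h
    have h1 : ((1 : unitInterval) : ℝ) < 1 := h
    simp at h1

theorem sph_section (R : Biv) (e : ℕ) : ∃ σ : R.Hom (LC.cpow (Fin e)) (cptL (LC.cpow (Fin e))),
    R.comp σ (R.J (collL (LC.cpow (Fin e)))) = R.J (PMap.id (LC.cpow (Fin e))) :=
  exists_section (uV e) (uV_tendsto e) R (B_null e)

theorem sph_exact (R : Biv) {e : ℕ} {L : LC} (x : R.Hom (cptL (LC.cpow (Fin e))) L)
    (h : R.comp (R.J (PMap.ofPoint (K := cptL (LC.cpow (Fin e))) OnePoint.infty)) x = 0) :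
    ∃ y, x = R.comp (R.J (collL (LC.cpow (Fin e)))) y :=
  coll_exact (uV e) (uV_tendsto e) R (B_null e) x h

theorem sph_inj (R : Biv) {e : ℕ} {L : LC} {x y : R.Hom (LC.cpow (Fin e)) L}
    (h : R.comp (R.J (collL (LC.cpow (Fin e)))) x = R.comp (R.J (collL (LC.cpow (Fin e)))) y) :
    x = y := by
  rw [← sub_eq_zero]
  apply coll_inj (uV e) (uV_tendsto e) R (B_null e)
  rw [c_sub, h, sub_self]

/-- the same for `Z × ℂ^e` -/
theorem sph_inj_ltens (R : Biv) (Z : LC) {e : ℕ} {L : LC}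
    {x y : R.Hom (Z.prod (LC.cpow (Fin e))) L}
    (h : R.comp (R.J (PMap.ltens Z (collL (LC.cpow (Fin e))))) x =
      R.comp (R.J (PMap.ltens Z (collL (LC.cpow (Fin e))))) y) : x = y := by
  obtain ⟨σ, hσ⟩ := sph_section R e
  have h1 : ∀ w : R.Hom (Z.prod (LC.cpow (Fin e))) L,
      R.comp (R.ltens Z σ) (R.comp (R.J (PMap.ltens Z (collL (LC.cpow (Fin e))))) w) = w := by
    intro w
    rw [← R.assoc, ← ltens_J, ← ltens_comp, hσ, ltens_id, R.id_comp]
  rw [← h1 x, h, h1]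

end Pool.Agent.Helper9.Stab
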