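import Pool.Agent.Helper9.Stab.BivL
import Pool.Agent.Helper1.Stab.Grass

/-! The splitting of the point at infinity from a one-point compactification. -/

open Topology Filter Set

noncomputable section

namespace Pool.Agent.Helper9.Stab

open Pool.Agent.Helper1.Stab

/-- the one-point compactification as a compact space -/
abbrev cptL (K : LC) : LC := ⟨OnePoint K⟩

/-- the map `K⁺ ⇢ K` -/
def collL (K : LC) : PMap (cptL K) K.plus :=
  ⟨fun x => x, continuous_id, by rw [cocompact_eq_bot]; exact tendsto_bot⟩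

/-- a map of a compact space -/
def ofC {K L : LC} [CompactSpace K] (f : C(K, L)) : PMap K L.plus :=
  PMap.ofProper f f.continuous (by rw [cocompact_eq_bot]; exact tendsto_bot)

section

variable {K : LC} (u : C(K, ℝ)) (hu : Tendsto u (cocompact K) (𝓝 2))

include hu in
theorem uS_cont : Continuous fun p : OnePoint K => OnePoint.elim p (2 : ℝ) u := by
  rw [OnePoint.continuous_iff]
  refine ⟨?_, u.continuous⟩
  rw [coclosedCompact_eq_cocompact]
  exact hu

/-- the extension of `u` by `2` -/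
def uS : C(cptL K, ℝ) := ⟨fun p : OnePoint K => OnePoint.elim p (2 : ℝ) u, uS_cont u hu⟩

include hu in
theorem compactA : CompactSpace (MV.A u) := by
  have h1 : {k : K | 1 < u k} ∈ cocompact K := hu (lt_mem_nhds (by norm_num))
  obtain ⟨D, hD, hDs⟩ := mem_cocompact.1 h1
  have h2 : IsCompact {k : K | u k ≤ 1} := by
    refine hD.of_isClosed_subset (MV.clA u) ?_
    intro k hk
    by_contra h
    have h3 : 1 < u k := hDs h
    have h4 : u k ≤ 1 := hk
    exact absurd h3 (not_lt.2 h4)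
  exact isCompact_iff_compactSpace.1 h2

include hu in
theorem compactC : CompactSpace (MV.C u) := by
  have h1 : {k : K | 1 < u k} ∈ cocompact K := hu (lt_mem_nhds (by norm_num))
  obtain ⟨D, hD, hDs⟩ := mem_cocompact.1 h1
  have h2 : IsCompact {k : K | 0 ≤ u k ∧ u k ≤ 1} := by
    refine hD.of_isClosed_subset (MV.clC u) ?_
    intro k hk
    by_contra h
    have h3 : 1 < u k := hDs h
    have h4 : u k ≤ 1 := hk.2
    exact absurd h3 (not_lt.2 h4)
  exact isCompact_iff_compactSpace.1 h2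

/-- the part `A` of `K` and of `K⁺` -/
def jAf (k : MV.A u) : MV.A (uS u hu) := ⟨((k.1 : K) : OnePoint K), k.2⟩

/-- the part `C` of `K` and of `K⁺` -/
def jCf (k : MV.C u) : MV.C (uS u hu) := ⟨((k.1 : K) : OnePoint K), k.2⟩

theorem jAf_cont : Continuous (jAf u hu) :=
  (OnePoint.continuous_coe.comp continuous_subtype_val).subtype_mk _

theorem jCf_cont : Continuous (jCf u hu) :=
  (OnePoint.continuous_coe.comp continuous_subtype_val).subtype_mk _

theorem jAf_bij : Function.Bijective (jAf u hu) := by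
  constructor
  · intro a b h
    exact Subtype.ext (OnePoint.coe_injective (congrArg Subtype.val h))
  · rintro ⟨p, hp⟩
    rcases p with _ | z
    · exact absurd (show (2 : ℝ) ≤ 1 from hp) (by norm_num)
    · exact ⟨⟨z, hp⟩, rfl⟩

theorem jCf_bij : Function.Bijective (jCf u hu) := by
  constructor
  · intro a b h
    exact Subtype.ext (OnePoint.coe_injective (congrArg Subtype.val h))
  · rintro ⟨p, hp⟩
    rcases p with _ | z
    · exact absurd (show (2 : ℝ) ≤ 1 from hp.2) (by norm_num)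
    · exact ⟨⟨z, hp⟩, rfl⟩

/-- `A` -/
def jA : MV.A u ≃ₜ MV.A (uS u hu) :=
  haveI := compactA u hu
  Continuous.homeoOfEquivCompactToT2 (f := Equiv.ofBijective (jAf u hu) (jAf_bij u hu))
    (jAf_cont u hu)

/-- `C` -/
def jC : MV.C u ≃ₜ MV.C (uS u hu) :=
  haveI := compactC u hu
  Continuous.homeoOfEquivCompactToT2 (f := Equiv.ofBijective (jCf u hu) (jCf_bij u hu))
    (jCf_cont u hu)

theorem jA_apply (k : MV.A u) : jA u hu k = jAf u hu k := rfl
theorem jC_apply (k : MV.C u) : jC u hu k = jCf u hu k := rfl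

/-- `B⁺ → B` in `K⁺` -/
def jBf (x : OnePoint (MV.B u)) : MV.B (uS u hu) :=
  ⟨(MV.iB u).plus x, by
    rcases x with _ | b
    · exact (show (0 : ℝ) ≤ 2 by norm_num)
    · exact b.2⟩

theorem jBf_cont : Continuous (jBf u hu) := (MV.iB u).continuous_plus.subtype_mk _

theorem jBf_bij : Function.Bijective (jBf u hu) := by
  constructor
  · intro a b h
    have h' : (MV.iB u).plus a = (MV.iB u).plus b := congrArg Subtype.val h
    rcases a with _ | a <;> rcases b with _ | b
    · rfl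
    · exact absurd h' (OnePoint.infty_ne_coe _)
    · exact absurd h'.symm (OnePoint.infty_ne_coe _)
    · exact congrArg (fun x : MV.B u => (x : OnePoint (MV.B u)))
        (Subtype.ext (OnePoint.coe_injective h'))
  · rintro ⟨p, hp⟩
    rcases p with _ | z
    · exact ⟨OnePoint.infty, rfl⟩
    · let b : MV.B u := ⟨z, hp⟩
      exact ⟨(b : OnePoint (MV.B u)), rfl⟩

/-- `B⁺` is the part `B` of `K⁺` -/
def jB : OnePoint (MV.B u) ≃ₜ MV.B (uS u hu) :=
  Continuous.homeoOfEquivCompactToT2 (f := Equiv.ofBijective (jBf u hu) (jBf_bij u hu))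
    (jBf_cont u hu)

theorem jB_apply (k : OnePoint (MV.B u)) : jB u hu k = jBf u hu k := rfl

instance compactB : CompactSpace (MV.B (uS u hu)) := (jB u hu).compactSpace

/-- the collapse of `B` in `K⁺` to `B` in `K` -/
def collB : PMap (MV.B (uS u hu)) (MV.B u).plus :=
  ⟨(jB u hu).symm, (jB u hu).symm.continuous, by rw [cocompact_eq_bot]; exact tendsto_bot⟩

theorem coll_iB : (collL K).comp (MV.iB (uS u hu)) = (MV.iB u).comp (collB u hu) := by
  ext p
  obtain ⟨x, rfl⟩ := (jB u hu).surjective p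
  have h : collB u hu (jB u hu x) = x := (jB u hu).symm_apply_apply x
  rw [PMap.comp_apply, PMap.comp_apply, h]
  rfl

/-- the point at infinity in `B` -/
def pB : PMap LC.point (MV.B (uS u hu)).plus :=
  PMap.ofPoint (K := MV.B (uS u hu)) ⟨OnePoint.infty, show (0 : ℝ) ≤ 2 by norm_num⟩

theorem B_contract (hB : (PMap.id (MV.B u)).Homotopic (PMap.zero _ _)) :
    (PMap.id (MV.B (uS u hu))).Homotopic ((pB u hu).comp (PMap.toPoint (MV.B (uS u hu)))) := by
  obtain ⟨H, h0, h1⟩ := hB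
  let G : PMap (LC.I.prod (MV.B (uS u hu))) (MV.B u).plus :=
    H.comp ((PMap.id LC.I).box (collB u hu))
  have hc : CompactSpace (LC.I.prod (MV.B (uS u hu))) :=
    inferInstanceAs (CompactSpace (unitInterval × MV.B (uS u hu)))
  refine ⟨ofC (K := LC.I.prod (MV.B (uS u hu))) ⟨fun x => jB u hu (G x),
    (jB u hu).continuous.comp G.cont⟩, fun k => ?_, fun k => ?_⟩
  · change ((jB u hu (G ((0 : LC.I), k)) : MV.B (uS u hu)) : OnePoint (MV.B (uS u hu))) =
      (k : OnePoint (MV.B (uS u hu)))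
    congr 1
    have h2 : G ((0 : LC.I), k) = (jB u hu).symm k := by
      change H.plus (smashPt LC.I (MV.B u) (((0 : LC.I) : OnePoint LC.I), (jB u hu).symm k)) = _
      rcases (jB u hu).symm k with _ | b
      · rfl
      · exact h0 b
    rw [h2]
    exact (jB u hu).apply_symm_apply k
  · change ((jB u hu (G ((1 : LC.I), k)) : MV.B (uS u hu)) : OnePoint (MV.B (uS u hu))) = _
    have h2 : G ((1 : LC.I), k) = OnePoint.infty := by
      change H.plus (smashPt LC.I (MV.B u) (((1 : LC.I) : OnePoint LC.I), (jB u hu).symm k)) = _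
      rcases (jB u hu).symm k with _ | b
      · rfl
      · exact h1 b
    rw [h2]
    rfl

theorem coll_delta : (MV.delta u).comp (collL K) =
    (PMap.ltens LC.R (PMap.ofHomeo (K := MV.C (uS u hu)) (L := MV.C u) (jC u hu).symm)).comp
      (MV.delta (uS u hu)) := by
  ext p
  rcases p with _ | z
  · have h2 : ¬ (0 < uS u hu OnePoint.infty ∧ uS u hu OnePoint.infty < 1) := by
      rintro ⟨-, h⟩
      exact absurd (show (2 : ℝ) < 1 from h) (by norm_num)
    change OnePoint.infty = (PMap.ltens LC.R (PMap.ofHomeo (K := MV.C (uS u hu)) (L := MV.C u)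
      (jC u hu).symm)).plus (MV.deltaFun (uS u hu) OnePoint.infty)
    unfold MV.deltaFun
    rw [dif_neg h2]
    rfl
  · change MV.deltaFun u z = (PMap.ltens LC.R (PMap.ofHomeo (K := MV.C (uS u hu)) (L := MV.C u)
      (jC u hu).symm)).plus (MV.deltaFun (uS u hu) (z : OnePoint K))
    unfold MV.deltaFun
    by_cases h : 0 < u z ∧ u z < 1
    · rw [dif_pos h]
      have h' : 0 < uS u hu (z : OnePoint K) ∧ uS u hu (z : OnePoint K) < 1 := h
      rw [dif_pos h']
      change _ = (((MV.toReal (u z), (jC u hu).symm (⟨(z : OnePoint K), _⟩ : MV.C (uS u hu))) :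
        LC.R.prod (MV.C u)) : OnePoint (LC.R.prod (MV.C u)))
      have h3 : (jC u hu).symm (⟨(z : OnePoint K), ⟨h'.1.le, h'.2.le⟩⟩ : MV.C (uS u hu)) =
          (⟨z, h.1.le, h.2.le⟩ : MV.C u) := by
        rw [Homeomorph.symm_apply_eq]
        rfl
      rw [h3]
    · rw [dif_neg h]
      have h' : ¬ (0 < uS u hu (z : OnePoint K) ∧ uS u hu (z : OnePoint K) < 1) := h
      rw [dif_neg h']
      rfl

/-- `C ⊂ A` in `K` and in `K⁺` -/
theorem jA_iCA : (PMap.ofHomeo (K := MV.A u) (L := MV.A (uS u hu)) (jA u hu)).comp (MV.iCA u) =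
    (MV.iCA (uS u hu)).comp (PMap.ofHomeo (K := MV.C u) (L := MV.C (uS u hu)) (jC u hu)) := by
  ext k; rfl

theorem coll_iA : ((collL K).comp (MV.iA (uS u hu))).comp
    (PMap.ofHomeo (K := MV.A u) (L := MV.A (uS u hu)) (jA u hu)) = MV.iA u := by
  ext k; rfl

theorem iA_iCA {M : LC} (v : C(M, ℝ)) : (MV.iA v).comp (MV.iCA v) = (MV.iB v).comp (MV.iCB v) := by
  ext k; rfl

variable (R : Biv)

include hu in
/-- A class on `K⁺` that vanishes at infinity comes from `K`. -/
theorem coll_exact (hB : (PMap.id (MV.B u)).Homotopic (PMap.zero _ _)) {L : LC}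
    (x : R.Hom (cptL K) L)
    (h : R.comp (R.J (PMap.ofPoint (K := cptL K) OnePoint.infty)) x = 0) :
    ∃ y : R.Hom K L, x = R.comp (R.J (collL K)) y := by
  have hxB : R.comp (R.J (MV.iB (uS u hu))) x = 0 := by
    rw [← R.id_comp (R.comp (R.J (MV.iB (uS u hu))) x), R.J_homotopic (B_contract u hu hB),
      R.J_comp, R.assoc, ← R.assoc (R.J (pB u hu)), ← R.J_comp]
    have e : (MV.iB (uS u hu)).comp (pB u hu) = PMap.ofPoint (K := cptL K) OnePoint.infty := by
      ext k; rfl
    rw [e, h, c_zero]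
  set eA : PMap (MV.A u) (MV.A (uS u hu)).plus := PMap.ofHomeo (jA u hu) with heA
  set eC : PMap (MV.C u) (MV.C (uS u hu)).plus := PMap.ofHomeo (jC u hu) with heC
  obtain ⟨y, hyA, hyB⟩ := R.mv2 u (R.comp (R.J eA) (R.comp (R.J (MV.iA (uS u hu))) x)) 0 (by
    rw [c_zero, ← R.assoc, ← R.J_comp, jA_iCA, R.J_comp, R.assoc, ← R.assoc (R.J (MV.iCA _)),
      ← R.J_comp, iA_iCA, R.J_comp, R.assoc, hxB, c_zero, c_zero])
  have hA : R.comp (R.J (MV.iA (uS u hu))) (R.comp (R.J (collL K)) y) =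
      R.comp (R.J (MV.iA (uS u hu))) x := by
    have e1 : R.comp (R.J eA) (R.comp (R.J (MV.iA (uS u hu))) (R.comp (R.J (collL K)) y)) =
        R.comp (R.J eA) (R.comp (R.J (MV.iA (uS u hu))) x) := by
      rw [← hyA, ← R.assoc (R.J (MV.iA (uS u hu))), ← R.J_comp, ← R.assoc, ← R.J_comp, coll_iA]
    have e2 : ∀ z : R.Hom (MV.A (uS u hu)) L, R.comp (R.J (PMap.ofHomeo (K := MV.A (uS u hu))
        (L := MV.A u) (jA u hu).symm)) (R.comp (R.J eA) z) = z := by
      intro z
      rw [← R.assoc, ← R.J_comp, heA, ofHomeo_comp_symm, R.id_comp]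
    rw [← e2 (R.comp (R.J (MV.iA (uS u hu))) (R.comp (R.J (collL K)) y)), e1, e2]
  have hB' : R.comp (R.J (MV.iB (uS u hu))) (R.comp (R.J (collL K)) y) = 0 := by
    rw [← R.assoc, ← R.J_comp, coll_iB, R.J_comp, R.assoc, hyB, c_zero]
  obtain ⟨w, hw⟩ := R.mv1 (uS u hu) (x - R.comp (R.J (collL K)) y)
    (by rw [c_sub, hA, sub_self]) (by rw [c_sub, hxB, hB', sub_self])
  have hw2 : R.comp (R.J (MV.delta (uS u hu))) w =
      R.comp (R.J (collL K)) (R.comp (R.J (MV.delta u)) (R.comp (R.J (PMap.ltens LC.R eC)) w)) := by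
    rw [← R.assoc (R.J (collL K)), ← R.J_comp, coll_delta, R.J_comp, R.assoc,
      ← R.assoc (R.J (PMap.ltens LC.R _)), ← R.J_comp, ← PMap.box_comp]
    have e3 : eC.comp (PMap.ofHomeo (K := MV.C (uS u hu)) (L := MV.C u) (jC u hu).symm) =
        PMap.id _ := ofHomeo_comp_symm (K := MV.C u) (L := MV.C (uS u hu)) (jC u hu)
    rw [e3, PMap.comp_id, PMap.box_id, R.id_comp]
  refine ⟨y + R.comp (R.J (MV.delta u)) (R.comp (R.J (PMap.ltens LC.R eC)) w), ?_⟩
  rw [R.comp_add, ← hw2, ← hw]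
  abel

include hu in
/-- A class on `K` that vanishes on `K⁺` vanishes. -/
theorem coll_inj (hB : (PMap.id (MV.B u)).Homotopic (PMap.zero _ _)) {L : LC}
    (x : R.Hom K L) (h : R.comp (R.J (collL K)) x = 0) : x = 0 := by
  haveI := compactA u hu
  set eC : PMap (MV.C u) (MV.C (uS u hu)).plus := PMap.ofHomeo (jC u hu) with heC
  obtain ⟨y, hy⟩ := R.mv1 u x
    (by rw [← coll_iA u hu, R.J_comp, R.J_comp, R.assoc, R.assoc, h, c_zero, c_zero])
    (by rw [← R.id_comp (R.comp (R.J (MV.iB u)) x), R.J_homotopic hB, R.J_zero, z_comp])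
  have h1 : R.comp (R.J (MV.delta (uS u hu))) (R.comp (R.J (PMap.ltens LC.R
      (PMap.ofHomeo (K := MV.C (uS u hu)) (L := MV.C u) (jC u hu).symm))) y) = 0 := by
    rw [← R.assoc, ← R.J_comp, ← coll_delta, R.J_comp, R.assoc, ← hy, h]
  obtain ⟨s, t, hst⟩ := R.mv3 (uS u hu) _ h1
  have h2 : y = R.comp (R.J (PMap.ltens LC.R ((MV.iCA (uS u hu)).comp eC))) s -
      R.comp (R.J (PMap.ltens LC.R ((MV.iCB (uS u hu)).comp eC))) t := by
    have h3 := congrArg (fun z => R.comp (R.J (PMap.ltens LC.R eC)) z) hst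
    rw [c_sub, ← R.assoc, ← R.assoc, ← R.assoc, ← R.J_comp, ← R.J_comp, ← R.J_comp,
      ← PMap.box_comp, ← PMap.box_comp, ← PMap.box_comp, PMap.comp_id] at h3
    have e3 : (PMap.ofHomeo (K := MV.C (uS u hu)) (L := MV.C u) (jC u hu).symm).comp eC =
        PMap.id _ := ofHomeo_symm_comp (K := MV.C u) (L := MV.C (uS u hu)) (jC u hu)
    rw [e3, PMap.box_id, R.id_comp] at h3
    exact h3
  have h4 : R.comp (R.J (MV.delta u)) (R.J (PMap.ltens LC.R (MV.iCA u))) = 0 := by
    rw [← R.J_comp, R.J_homotopic (MV.delta_iCA u), R.J_zero]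
  have h5 : ∀ {M : LC} (g : PMap (MV.A u) M.plus) (z : R.Hom (LC.R.prod M) L),
      R.comp (R.J (MV.delta u)) (R.comp (R.J (PMap.ltens LC.R (g.comp (MV.iCA u)))) z) = 0 := by
    intro M g z
    have e4 : PMap.ltens LC.R (g.comp (MV.iCA u)) =
        (PMap.ltens LC.R g).comp (PMap.ltens LC.R (MV.iCA u)) := by
      rw [← PMap.box_comp, PMap.comp_id]
    rw [e4, R.J_comp, R.assoc, ← R.assoc (R.J (MV.delta u)), h4, z_comp]
  have h6 : t = R.comp (R.J (PMap.ltens LC.R (PMap.toPoint (MV.B (uS u hu)))))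
      (R.comp (R.J (PMap.ltens LC.R (pB u hu))) t) := by
    have h7 := R.J_homotopic ((B_contract u hu hB).box_right (PMap.id LC.R))
    rw [PMap.box_id] at h7
    rw [← R.assoc, ← R.J_comp, ← PMap.box_comp, PMap.comp_id, ← h7, R.id_comp]
  have h8 : (PMap.toPoint (MV.B (uS u hu))).comp ((MV.iCB (uS u hu)).comp eC) =
      (PMap.toPoint (MV.A u)).comp (MV.iCA u) := by
    ext k; rfl
  have h9 : R.comp (R.J (MV.delta u))
      (R.comp (R.J (PMap.ltens LC.R ((MV.iCB (uS u hu)).comp eC))) t) = 0 := by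
    rw [h6, ← R.assoc (R.J (PMap.ltens LC.R ((MV.iCB (uS u hu)).comp eC))), ← R.J_comp,
      ← PMap.box_comp, PMap.comp_id, h8]
    exact h5 _ _
  rw [hy, h2, c_sub, h9, sub_zero, ← jA_iCA]
  exact h5 _ _

include hu in
/-- The map `K⁺ ⇢ K` has a section in `R`. -/
theorem exists_section (hB : (PMap.id (MV.B u)).Homotopic (PMap.zero _ _)) :
    ∃ σ : R.Hom K (cptL K), R.comp σ (R.J (collL K)) = R.J (PMap.id K) := by
  obtain ⟨σ, hσ⟩ := coll_exact u hu R hB
    (R.J (PMap.id (cptL K)) - R.J ((PMap.ofPoint (K := cptL K) OnePoint.infty).comp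
      (PMap.toPoint (cptL K)))) (by
      rw [c_sub, ← R.J_comp, ← R.J_comp, sub_eq_zero]
      congr 1)
  refine ⟨σ, ?_⟩
  rw [← sub_eq_zero]
  apply coll_inj u hu R hB
  have e1 : (collL K).comp ((PMap.ofPoint (K := cptL K) OnePoint.infty).comp
      (PMap.toPoint (cptL K))) = PMap.zero _ _ := by
    ext k; rfl
  rw [c_sub, ← R.assoc, ← hσ, sub_c, R.id_comp, R.comp_id, ← R.J_comp, e1, R.J_zero, sub_zero,
    sub_self]

end

end Pool.Agent.Helper9.Stab
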