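import Pool.Agent.Helper1.Stab.GF
import Pool.Agent.Helper68.Stab.Cogroup

/-! Pull-backs in functors on test spaces. -/

open CategoryTheory Topology Filter Set Opposite

noncomputable section

namespace Pool.Agent.Helper1.Stab

/-! ## Pull-backs -/

/-- the morphism of test spaces given by a pointed map -/
abbrev tmk {K L : Test} (f : PMap K.obj L.obj.plus) : K ⟶ L := ObjectProperty.homMk f.cls

/-- pull-back along a pointed map -/
def pbT (F : Testᵒᵖ ⥤ AddCommGrpCat.{0}) {K L : Test} (f : PMap K.obj L.obj.plus) :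
    (F.obj (op L) : Type) → (F.obj (op K) : Type) :=
  F.map (Quiver.Hom.op (X := K) (Y := L) (tmk f))

theorem pbT_homotopic (F : Testᵒᵖ ⥤ AddCommGrpCat.{0}) {K L : Test} {f g : PMap K.obj L.obj.plus}
    (h : f.Homotopic g) : pbT F f = pbT F g := by
  unfold pbT tmk
  rw [PMap.cls_eq.2 h]

theorem pbT_id (F : Testᵒᵖ ⥤ AddCommGrpCat.{0}) (K : Test) (x : F.obj (op K)) :
    pbT F (PMap.id K.obj) x = x := by
  have h : tmk (K := K) (L := K) (PMap.id K.obj) = 𝟙 K := rfl
  unfold pbT
  rw [h, op_id, F.map_id]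
  rfl

theorem pbT_comp (F : Testᵒᵖ ⥤ AddCommGrpCat.{0}) {K L M : Test} (g : PMap L.obj M.obj.plus)
    (f : PMap K.obj L.obj.plus) (x : F.obj (op M)) :
    pbT F (PMap.comp g f) x = pbT F f (pbT F g x) := by
  have h : tmk (K := K) (L := M) (PMap.comp g f) = tmk f ≫ tmk g := rfl
  unfold pbT
  rw [h, op_comp, F.map_comp]
  rfl

theorem pbT_add (F : Testᵒᵖ ⥤ AddCommGrpCat.{0}) {K L : Test} (f : PMap K.obj L.obj.plus)
    (x y : F.obj (op L)) : pbT F f (x + y) = pbT F f x + pbT F f y :=
  map_add (F.map (Quiver.Hom.op (X := K) (Y := L) (tmk f))).hom x y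

theorem pbT_zero (F : Testᵒᵖ ⥤ AddCommGrpCat.{0}) {K L : Test} (f : PMap K.obj L.obj.plus) :
    pbT F f 0 = 0 :=
  map_zero (F.map (Quiver.Hom.op (X := K) (Y := L) (tmk f))).hom

theorem pbT_sub (F : Testᵒᵖ ⥤ AddCommGrpCat.{0}) {K L : Test} (f : PMap K.obj L.obj.plus)
    (x y : F.obj (op L)) : pbT F f (x - y) = pbT F f x - pbT F f y :=
  map_sub (F.map (Quiver.Hom.op (X := K) (Y := L) (tmk f))).hom x y

/-- naturality of the suspension isomorphism -/
theorem sig_pbT (H : GF) (b : ℕ) {K L : Test} (f : PMap K.obj L.obj.plus)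
    (x : (H.h b).obj (op L)) : (H.σ b).hom.app (op K) (pbT (H.h b) f x) =
      pbT (H.h (b + 1)) (K := Test.cx.obj K) (L := Test.cx.obj L) (PMap.ltens LC.C f)
        ((H.σ b).hom.app (op L) x) := by
  have h := congrArg (fun t => t x)
    (congrArg (fun t => (ConcreteCategory.hom t)) ((H.σ b).hom.naturality (tmk f).op))
  exact h

/-- the inverse of the suspension isomorphism -/
def sigInv (H : GF) (b : ℕ) (K : Test) (y : (H.h (b + 1)).obj (op (Test.cx.obj K))) :
    (H.h b).obj (op K) := (H.σ b).inv.app (op K) y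

theorem sig_sigInv (H : GF) (b : ℕ) (K : Test) (y : (H.h (b + 1)).obj (op (Test.cx.obj K))) :
    (H.σ b).hom.app (op K) (sigInv H b K y) = y := by
  have h := congrArg (fun t => (ConcreteCategory.hom t) y)
    (congrArg (fun t => NatTrans.app t (op K)) (H.σ b).inv_hom_id)
  exact h

theorem sigInv_sig (H : GF) (b : ℕ) (K : Test) (x : (H.h b).obj (op K)) :
    sigInv H b K ((H.σ b).hom.app (op K) x) = x := by
  have h := congrArg (fun t => (ConcreteCategory.hom t) x)
    (congrArg (fun t => NatTrans.app t (op K)) (H.σ b).hom_inv_id)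
  exact h

theorem sig_inj (H : GF) (b : ℕ) (K : Test) {x y : (H.h b).obj (op K)}
    (h : (H.σ b).hom.app (op K) x = (H.σ b).hom.app (op K) y) : x = y := by
  rw [← sigInv_sig H b K x, h, sigInv_sig]

theorem sigInv_pbT (H : GF) (b : ℕ) {K L : Test} (f : PMap K.obj L.obj.plus)
    (y : (H.h (b + 1)).obj (op (Test.cx.obj L))) :
    sigInv H b K (pbT (H.h (b + 1)) (K := Test.cx.obj K) (L := Test.cx.obj L)
      (PMap.ltens LC.C f) y) = pbT (H.h b) f (sigInv H b L y) := by
  apply sig_inj
  rw [sig_sigInv, sig_pbT, sig_sigInv]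

/-- morphisms commute with pull-backs -/
theorem app_pbT {G H : GF} (F : G ⟶ H) (b : ℕ) {K L : Test} (f : PMap K.obj L.obj.plus)
    (x : (G.h b).obj (op L)) :
    (F.app b).app (op K) (pbT (G.h b) f x) = pbT (H.h b) f ((F.app b).app (op L) x) := by
  have h := congrArg (fun t => (ConcreteCategory.hom t) x) ((F.app b).naturality (tmk f).op)
  exact h

/-- morphisms commute with the suspension isomorphism -/
theorem app_sig {G H : GF} (F : G ⟶ H) (b : ℕ) (K : Test) (x : (G.h b).obj (op K)) :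
    (F.app (b + 1)).app (op (Test.cx.obj K)) ((G.σ b).hom.app (op K) x) =
      (H.σ b).hom.app (op K) ((F.app b).app (op K) x) := by
  have h := congrArg (fun t => (ConcreteCategory.hom t) x) (F.comm_apply b (op K))
  exact h

end Pool.Agent.Helper1.Stab
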